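import Mathlib

set_option autoImplicit false

namespace Pool.Agent.H488R3

open Finset
open scoped Classical

variable {V W : Type} [Fintype V] [Fintype W]

/-- homomorphisms as functions -/
noncomputable def HM (G : SimpleGraph V) (H : SimpleGraph W) : Finset (V → W) :=
  univ.filter (fun φ => ∀ a b, G.Adj a b → H.Adj (φ a) (φ b))

lemma mem_HM {G : SimpleGraph V} {H : SimpleGraph W} {φ : V → W} :
    φ ∈ HM G H ↔ ∀ a b, G.Adj a b → H.Adj (φ a) (φ b) := by simp [HM]

/-- degree, as an integer -/
noncomputable def dg (H : SimpleGraph W) (w : W) : ℤ := ∑ x, if H.Adj w x then 1 else 0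

/-- number of ordered adjacent pairs -/
noncomputable def EE (H : SimpleGraph W) : ℤ := ∑ w, dg H w

noncomputable def PP (H : SimpleGraph W) (u v : W) : Finset W :=
  univ.filter (fun w => w ≠ u ∧ w ≠ v ∧ H.Adj u w ∧ ¬ H.Adj v w)

lemma mem_PP {H : SimpleGraph W} {u v w : W} :
    w ∈ PP H u v ↔ w ≠ u ∧ w ≠ v ∧ H.Adj u w ∧ ¬ H.Adj v w := by simp [PP]

/-- compression of `u` to `v` -/
def cmp (H : SimpleGraph W) (u v : W) (huv : u ≠ v) : SimpleGraph W where
  Adj a b := (H.Adj a b ∧ ¬ (a = u ∧ b ∈ PP H u v) ∧ ¬ (b = u ∧ a ∈ PP H u v)) ∨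
    (a = v ∧ b ∈ PP H u v) ∨ (b = v ∧ a ∈ PP H u v)
  symm := ⟨by
    intro a b h
    rcases h with ⟨h1, h2, h3⟩ | h | h
    · exact Or.inl ⟨h1.symm, h3, h2⟩
    · exact Or.inr (Or.inr h)
    · exact Or.inr (Or.inl h)⟩
  loopless := ⟨by
    intro a h
    rcases h with ⟨h1, _, _⟩ | h | h
    · exact H.loopless.irrefl a h1
    · obtain ⟨h1, h2⟩ := h
      subst h1
      exact (mem_PP.1 h2).2.1 rfl
    · obtain ⟨h1, h2⟩ := h
      subst h1
      exact (mem_PP.1 h2).2.1 rfl⟩

lemma cmp_adj {H : SimpleGraph W} {u v : W} (huv : u ≠ v) (a b : W) :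
    (cmp H u v huv).Adj a b ↔ (H.Adj a b ∧ ¬ (a = u ∧ b ∈ PP H u v) ∧ ¬ (b = u ∧ a ∈ PP H u v)) ∨
    (a = v ∧ b ∈ PP H u v) ∨ (b = v ∧ a ∈ PP H u v) := Iff.rfl

lemma cmp_ind {H : SimpleGraph W} {u v : W} (huv : u ≠ v) (a b : W) :
    (if (cmp H u v huv).Adj a b then (1:ℤ) else 0)
      = (if H.Adj a b then 1 else 0) - (if a = u then (if b ∈ PP H u v then 1 else 0) else 0)
        - (if b = u then (if a ∈ PP H u v then 1 else 0) else 0)
        + (if a = v then (if b ∈ PP H u v then 1 else 0) else 0)
        + (if b = v then (if a ∈ PP H u v then 1 else 0) else 0) := by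
  rw [cmp_adj]
  by_cases hau : a = u
  · subst hau
    have h1 : a ∉ PP H a v := by simp [mem_PP]
    have h2 : a ≠ v := huv
    by_cases hb : b ∈ PP H a v
    · have hb' := mem_PP.1 hb
      simp [h1, h2, hb, hb'.1, hb'.2.1, hb'.2.2.1]
    · simp [h1, h2, hb]
  · by_cases hav : a = v
    · subst hav
      have h1 : a ∉ PP H u a := by simp [mem_PP]
      by_cases hb : b ∈ PP H u a
      · have hb' := mem_PP.1 hb
        simp [h1, hau, hb, hb'.1, hb'.2.1, hb'.2.2.2]
      · simp [h1, hau, hb]
    · by_cases ha : a ∈ PP H u v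
      · have ha' := mem_PP.1 ha
        by_cases hbu : b = u
        · subst hbu
          simp [hau, hav, ha, huv, ha'.2.2.1.symm]
        · by_cases hbv : b = v
          · subst hbv
            have : ¬ H.Adj a b := fun h => ha'.2.2.2 h.symm
            simp [hau, hav, ha, hbu, this]
          · simp [hau, hav, hbu, hbv]
      · simp [hau, hav, ha]

lemma sum_ind_mem (P : Finset W) : ∑ b : W, (if b ∈ P then (1:ℤ) else 0) = P.card := by
  simp

lemma dg_cmp {H : SimpleGraph W} {u v : W} (huv : u ≠ v) (a : W) :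
    dg (cmp H u v huv) a = dg H a - (if a = u then ((PP H u v).card : ℤ) else 0)
      + (if a = v then ((PP H u v).card : ℤ) else 0) := by
  unfold dg
  simp_rw [cmp_ind]
  rw [sum_add_distrib, sum_add_distrib, sum_sub_distrib, sum_sub_distrib]
  have h1 : ∑ b, (if a = u then (if b ∈ PP H u v then (1:ℤ) else 0) else 0)
      = if a = u then ((PP H u v).card : ℤ) else 0 := by
    split_ifs <;> simp
  have h2 : ∑ b, (if a = v then (if b ∈ PP H u v then (1:ℤ) else 0) else 0)
      = if a = v then ((PP H u v).card : ℤ) else 0 := by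
    split_ifs <;> simp
  have h3 : ∑ b, (if b = u then (if a ∈ PP H u v then (1:ℤ) else 0) else 0)
      = if a ∈ PP H u v then (1:ℤ) else 0 := by
    simp
  have h4 : ∑ b, (if b = v then (if a ∈ PP H u v then (1:ℤ) else 0) else 0)
      = if a ∈ PP H u v then (1:ℤ) else 0 := by
    simp
  rw [h1, h2, h3, h4]
  ring

lemma EE_cmp {H : SimpleGraph W} {u v : W} (huv : u ≠ v) : EE (cmp H u v huv) = EE H := by
  unfold EE
  simp_rw [dg_cmp]
  rw [sum_add_distrib, sum_sub_distrib]
  simp

lemma dg_diff {H : SimpleGraph W} {u v : W} (huv : u ≠ v) :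
    dg H v - dg H u = (PP H v u).card - (PP H u v).card := by
  unfold dg
  rw [← sum_sub_distrib, ← sum_ind_mem, ← sum_ind_mem, ← sum_sub_distrib]
  have h : ∀ b : W, ((if H.Adj v b then (1:ℤ) else 0) - (if H.Adj u b then 1 else 0))
      = ((if b ∈ PP H v u then (1:ℤ) else 0) - (if b ∈ PP H u v then 1 else 0))
        + ((if b = u then (if H.Adj u v then 1 else 0) else 0) - (if b = v then (if H.Adj u v then 1 else 0) else 0)) := by
    intro b
    simp only [mem_PP]
    by_cases hbu : b = u
    · subst hbu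
      simp [huv, H.adj_comm v b]
    · by_cases hbv : b = v
      · subst hbv
        simp [hbu]
      · by_cases h1 : H.Adj u b <;> by_cases h2 : H.Adj v b <;> simp [hbu, hbv, h1, h2]
  rw [sum_congr rfl (fun b _ => h b), sum_add_distrib]
  have : ∑ b : W, ((if b = u then (if H.Adj u v then (1:ℤ) else 0) else 0) - (if b = v then (if H.Adj u v then 1 else 0) else 0)) = 0 := by
    rw [sum_sub_distrib]; simp
  rw [this, add_zero]

noncomputable def Phi (H : SimpleGraph W) : ℤ := ∑ w, dg H w ^ 2

lemma Phi_cmp {H : SimpleGraph W} {u v : W} (huv : u ≠ v) :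
    Phi (cmp H u v huv) = Phi H + 2 * (PP H u v).card * (PP H v u).card := by
  have hd := dg_diff (H := H) huv
  unfold Phi
  simp_rw [dg_cmp]
  set p : ℤ := ((PP H u v).card : ℤ) with hp
  have h : ∀ a : W, (dg H a - (if a = u then p else 0) + (if a = v then p else 0)) ^ 2
      = dg H a ^ 2 + (if a = u then (p ^ 2 - 2 * p * dg H u) else 0) + (if a = v then (p ^ 2 + 2 * p * dg H v) else 0) := by
    intro a
    by_cases hau : a = u
    · subst hau
      simp [huv]; ring
    · by_cases hav : a = v
      · subst hav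
        simp [hau]; ring
      · simp [hau, hav]
  rw [sum_congr rfl (fun a _ => h a), sum_add_distrib, sum_add_distrib]
  simp only [sum_ite_eq', mem_univ, if_true]
  have : ((PP H v u).card : ℤ) = dg H v - dg H u + p := by rw [hd]; ring
  rw [this]
  ring

lemma dg_le (H : SimpleGraph W) (w : W) : dg H w ≤ Fintype.card W := by
  unfold dg
  calc ∑ x, (if H.Adj w x then (1:ℤ) else 0) ≤ ∑ x : W, (1:ℤ) :=
        sum_le_sum (fun x _ => by split_ifs <;> norm_num)
    _ = Fintype.card W := by simp

lemma dg_nonneg (H : SimpleGraph W) (w : W) : 0 ≤ dg H w := by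
  unfold dg
  exact sum_nonneg (fun x _ => by split_ifs <;> norm_num)

lemma Phi_le (H : SimpleGraph W) : Phi H ≤ (Fintype.card W : ℤ) ^ 3 := by
  unfold Phi
  calc ∑ w, dg H w ^ 2 ≤ ∑ w : W, (Fintype.card W : ℤ) ^ 2 :=
        sum_le_sum (fun w _ => pow_le_pow_left₀ (dg_nonneg H w) (dg_le H w) 2)
    _ = (Fintype.card W : ℤ) ^ 3 := by simp; ring

lemma Phi_nonneg (H : SimpleGraph W) : 0 ≤ Phi H := sum_nonneg (fun w _ => sq_nonneg _)

/-- bad homomorphisms -/
noncomputable def Bad (G : SimpleGraph V) (H : SimpleGraph W) (u v : W) : Finset (V → W) :=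
  univ.filter (fun φ => ∃ s t p q, φ s = u ∧ φ t = v ∧ φ p ∈ PP H u v ∧ φ q ∈ PP H v u)

lemma good_inj (G : SimpleGraph V) (H : SimpleGraph W) (u v : W) (huv : u ≠ v) :
    (HM G H).card ≤ (HM G (cmp H u v huv)).card + (Bad G H u v).card := by
  have h1 : (HM G H).card ≤ (HM G H \ Bad G H u v).card + (Bad G H u v).card := by
    have := card_le_card_sdiff_add_card (s := HM G H) (t := Bad G H u v)
    omega
  refine h1.trans (Nat.add_le_add_right ?_ _)
  set K := HM G (cmp H u v huv) with hK
  refine card_le_card_of_injOn (fun φ => if φ ∈ K then φ else (fun x => Equiv.swap u v (φ x))) ?_ ?_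
  · intro φ hφ
    simp only [coe_sdiff, Set.mem_sdiff, mem_coe] at hφ
    obtain ⟨hφ1, hφ2⟩ := hφ
    simp only [mem_coe]
    by_cases hφK : φ ∈ K
    · rw [if_pos hφK]; exact hφK
    · rw [if_neg hφK]
      rw [mem_HM] at hφ1
      -- there is a bad edge
      have hex : ∃ s p, φ s = u ∧ φ p ∈ PP H u v := by
        by_contra hcon
        push Not at hcon
        apply hφK
        rw [hK, mem_HM]
        intro a b hab
        rw [cmp_adj]
        left
        exact ⟨hφ1 a b hab, fun h => hcon a b h.1 h.2, fun h => hcon b a h.1 h.2⟩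
      obtain ⟨s, p, hs, hp⟩ := hex
      have hnb : ∀ t q, φ t = v → φ q ∈ PP H v u → False := by
        intro t q ht hq
        apply hφ2
        simp only [Bad, mem_filter, mem_univ, true_and]
        exact ⟨s, t, p, q, hs, ht, hp, hq⟩
      rw [hK, mem_HM]
      intro a b hab
      have hadj := hφ1 a b hab
      have hadj' := hadj.symm
      rw [cmp_adj]
      have aux : ∀ x y : V, H.Adj (φ x) (φ y) → φ x = u → φ y ≠ v →
          (H.Adj v (φ y) ∨ φ y ∈ PP H u v) := by
        intro x y hxy hx hy
        by_cases h : H.Adj v (φ y)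
        · exact Or.inl h
        · right
          rw [mem_PP]
          refine ⟨?_, hy, hx ▸ hxy, h⟩
          intro h2
          rw [hx, h2] at hxy
          exact H.loopless.irrefl _ hxy
      have aux2 : ∀ x y : V, H.Adj (φ x) (φ y) → φ x = v → φ y ≠ u →
          H.Adj u (φ y) := by
        intro x y hxy hx hy
        by_contra h
        apply hnb x y hx
        rw [mem_PP]
        refine ⟨?_, hy, hx ▸ hxy, h⟩
        intro h2
        rw [hx, h2] at hxy
        exact H.loopless.irrefl _ hxy
      by_cases hau : φ a = u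
      · by_cases hbv : φ b = v
        · rw [hau, hbv, Equiv.swap_apply_left, Equiv.swap_apply_right]
          left
          refine ⟨?_, ?_, ?_⟩
          · rw [hau, hbv] at hadj; exact hadj.symm
          · rintro ⟨h, _⟩; exact huv h.symm
          · rintro ⟨_, h⟩; exact (mem_PP.1 h).2.1 rfl
        · have hbu : φ b ≠ u := by
            intro h
            rw [hau, h] at hadj
            exact H.loopless.irrefl _ hadj
          rw [hau, Equiv.swap_apply_left, Equiv.swap_apply_of_ne_of_ne hbu hbv]
          rcases aux a b hadj hau hbv with h | h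
          · left
            exact ⟨h, fun h2 => huv h2.1.symm, fun h2 => hbu h2.1⟩
          · right; left; exact ⟨rfl, h⟩
      · by_cases hav : φ a = v
        · by_cases hbu : φ b = u
          · rw [hav, hbu, Equiv.swap_apply_left, Equiv.swap_apply_right]
            left
            refine ⟨?_, ?_, ?_⟩
            · rw [hav, hbu] at hadj; exact hadj.symm
            · rintro ⟨_, h⟩; exact (mem_PP.1 h).2.1 rfl
            · rintro ⟨h, _⟩; exact huv h.symm
          · have hbv : φ b ≠ v := by
              intro h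
              rw [hav, h] at hadj
              exact H.loopless.irrefl _ hadj
            rw [hav, Equiv.swap_apply_right, Equiv.swap_apply_of_ne_of_ne hbu hbv]
            left
            refine ⟨aux2 a b hadj hav hbu, ?_, ?_⟩
            · rintro ⟨_, h⟩
              rw [hav] at hadj
              exact (mem_PP.1 h).2.2.2 hadj
            · rintro ⟨h, _⟩; exact hbu h
        · rw [Equiv.swap_apply_of_ne_of_ne hau hav]
          by_cases hbu : φ b = u
          · rw [hbu, Equiv.swap_apply_left]
            rcases aux b a hadj' hbu hav with h | h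
            · left
              exact ⟨h.symm, fun h2 => hau h2.1, fun h2 => huv h2.1.symm⟩
            · right; right; exact ⟨rfl, h⟩
          · by_cases hbv : φ b = v
            · rw [hbv, Equiv.swap_apply_right]
              left
              refine ⟨(aux2 b a hadj' hbv hau).symm, ?_, ?_⟩
              · rintro ⟨h, _⟩; exact hau h
              · rintro ⟨_, h⟩
                rw [hbv] at hadj'
                exact (mem_PP.1 h).2.2.2 hadj'
            · rw [Equiv.swap_apply_of_ne_of_ne hbu hbv]
              left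
              exact ⟨hadj, fun h => hau h.1, fun h => hbu h.1⟩
  · -- injectivity
    have key : ∀ φ ψ : V → W, φ ∈ HM G H → ψ ∈ HM G H → ψ ∉ K →
        φ = (fun x => Equiv.swap u v (ψ x)) → False := by
      intro φ ψ hφ hψ hψK he
      apply hψK
      rw [hK, mem_HM]
      rw [mem_HM] at hφ hψ
      intro a b hab
      rw [cmp_adj]
      left
      refine ⟨hψ a b hab, ?_, ?_⟩
      · rintro ⟨h1, h2⟩
        have h3 := hφ a b hab
        rw [he] at h3
        simp only at h3
        rw [h1, Equiv.swap_apply_left, Equiv.swap_apply_of_ne_of_ne (mem_PP.1 h2).1 (mem_PP.1 h2).2.1] at h3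
        exact (mem_PP.1 h2).2.2.2 h3
      · rintro ⟨h1, h2⟩
        have h3 := hφ b a hab.symm
        rw [he] at h3
        simp only at h3
        rw [h1, Equiv.swap_apply_left, Equiv.swap_apply_of_ne_of_ne (mem_PP.1 h2).1 (mem_PP.1 h2).2.1] at h3
        exact (mem_PP.1 h2).2.2.2 h3
    intro φ hφ ψ hψ he
    simp only [coe_sdiff, Set.mem_sdiff, mem_coe] at hφ hψ
    simp only at he
    by_cases h1 : φ ∈ K <;> by_cases h2 : ψ ∈ K
    · rw [if_pos h1, if_pos h2] at he; exact he
    · rw [if_pos h1, if_neg h2] at he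
      exact (key φ ψ hφ.1 hψ.1 h2 he).elim
    · rw [if_neg h1, if_pos h2] at he
      exact (key ψ φ hψ.1 hφ.1 h1 he.symm).elim
    · rw [if_neg h1, if_neg h2] at he
      funext x
      have := congrFun he x
      exact (Equiv.swap u v).injective this

lemma fiber_bound (H : SimpleGraph W) (u v : W) (huv : u ≠ v) (s t p q : V) :
    (Fintype.card W) ^ 4 * (univ.filter (fun φ : V → W => φ s = u ∧ φ t = v ∧ φ p ∈ PP H u v ∧ φ q ∈ PP H v u)).card
      ≤ (PP H u v).card * (PP H v u).card * (Fintype.card W) ^ (Fintype.card V) := by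
  by_cases hne : (univ.filter (fun φ : V → W => φ s = u ∧ φ t = v ∧ φ p ∈ PP H u v ∧ φ q ∈ PP H v u)).Nonempty
  · obtain ⟨φ, hφ⟩ := hne
    simp only [mem_filter, mem_univ, true_and] at hφ
    obtain ⟨h1, h2, h3, h4⟩ := hφ
    have st : s ≠ t := by rintro rfl; exact huv (h1.symm.trans h2)
    have sp : s ≠ p := by rintro rfl; exact (mem_PP.1 h3).1 h1
    have sq : s ≠ q := by rintro rfl; exact (mem_PP.1 h4).2.1 h1
    have tp : t ≠ p := by rintro rfl; exact (mem_PP.1 h3).2.1 h2
    have tq : t ≠ q := by rintro rfl; exact (mem_PP.1 h4).1 h2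
    have pq : p ≠ q := by
      rintro rfl
      exact (mem_PP.1 h3).2.2.2 (mem_PP.1 h4).2.2.1
    set F : V → Finset W := fun x => if x = s then {u} else if x = t then {v} else if x = p then PP H u v
      else if x = q then PP H v u else univ with hF
    have hsub : (univ.filter (fun φ : V → W => φ s = u ∧ φ t = v ∧ φ p ∈ PP H u v ∧ φ q ∈ PP H v u))
        ⊆ Fintype.piFinset F := by
      intro ψ hψ
      simp only [mem_filter, mem_univ, true_and] at hψ
      rw [Fintype.mem_piFinset]
      intro x
      simp only [hF]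
      split_ifs with g1 g2 g3 g4
      · subst g1; simp [hψ.1]
      · subst g2; simp [hψ.2.1]
      · subst g3; exact hψ.2.2.1
      · subst g4; exact hψ.2.2.2
      · exact mem_univ _
    have hcard := card_le_card hsub
    rw [Fintype.card_piFinset] at hcard
    have m1 : s ∈ (univ : Finset V) := mem_univ _
    have m2 : t ∈ (univ : Finset V).erase s := by simp [st.symm]
    have m3 : p ∈ ((univ : Finset V).erase s).erase t := by simp [sp.symm, tp.symm]
    have m4 : q ∈ (((univ : Finset V).erase s).erase t).erase p := by simp [sq.symm, tq.symm, pq.symm]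
    rw [← mul_prod_erase _ _ m1, ← mul_prod_erase _ _ m2, ← mul_prod_erase _ _ m3, ← mul_prod_erase _ _ m4] at hcard
    have e1 : (F s).card = 1 := by simp [hF]
    have e2 : (F t).card = 1 := by simp [hF, st.symm]
    have e3 : (F p).card = (PP H u v).card := by simp [hF, sp.symm, tp.symm]
    have e4 : (F q).card = (PP H v u).card := by simp [hF, sq.symm, tq.symm, pq.symm]
    have e5 : ∏ x ∈ ((((univ : Finset V).erase s).erase t).erase p).erase q, (F x).card
        = Fintype.card W ^ (Fintype.card V - 4) := by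
      have hh : ∀ x ∈ ((((univ : Finset V).erase s).erase t).erase p).erase q, (F x).card = Fintype.card W := by
        intro x hx
        simp only [mem_erase, mem_univ, and_true] at hx
        simp [hF, hx]
      rw [prod_congr rfl hh, prod_const, card_erase_of_mem m4, card_erase_of_mem m3, card_erase_of_mem m2,
        card_erase_of_mem m1, card_univ]
      congr 1
    have hV : 4 ≤ Fintype.card V := by
      have c1 := card_erase_of_mem m4
      have c2 := card_erase_of_mem m3
      have c3 := card_erase_of_mem m2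
      have c4 := card_erase_of_mem m1
      have c5 : 0 < ((((univ : Finset V).erase s).erase t).erase p).card := card_pos.2 ⟨q, m4⟩
      rw [card_univ] at c4
      omega
    rw [e1, e2, e3, e4, e5] at hcard
    calc (Fintype.card W) ^ 4 * _ ≤ (Fintype.card W) ^ 4 * (1 * (1 * ((PP H u v).card * ((PP H v u).card * Fintype.card W ^ (Fintype.card V - 4))))) :=
          Nat.mul_le_mul_left _ hcard
      _ = (PP H u v).card * (PP H v u).card * ((Fintype.card W) ^ 4 * Fintype.card W ^ (Fintype.card V - 4)) := by ring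
      _ = _ := by rw [← pow_add]; congr 2; omega
  · rw [not_nonempty_iff_eq_empty] at hne
    rw [hne]; simp

lemma Bad_bound (G : SimpleGraph V) (H : SimpleGraph W) (u v : W) (huv : u ≠ v) :
    (Fintype.card W) ^ 4 * (Bad G H u v).card
      ≤ (Fintype.card V) ^ 4 * ((PP H u v).card * (PP H v u).card * (Fintype.card W) ^ (Fintype.card V)) := by
  have h1 : Bad G H u v ⊆ (univ : Finset (V × V × V × V)).biUnion (fun x =>
      univ.filter (fun φ : V → W => φ x.1 = u ∧ φ x.2.1 = v ∧ φ x.2.2.1 ∈ PP H u v ∧ φ x.2.2.2 ∈ PP H v u)) := by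
    intro φ hφ
    simp only [Bad, mem_filter, mem_univ, true_and] at hφ
    obtain ⟨s, t, p, q, h⟩ := hφ
    simp only [mem_biUnion, mem_univ, true_and, mem_filter]
    exact ⟨(s, t, p, q), h⟩
  have h2 := (card_le_card h1).trans card_biUnion_le
  calc (Fintype.card W) ^ 4 * (Bad G H u v).card
      ≤ (Fintype.card W) ^ 4 * ∑ x : V × V × V × V, (univ.filter (fun φ : V → W => φ x.1 = u ∧ φ x.2.1 = v ∧ φ x.2.2.1 ∈ PP H u v ∧ φ x.2.2.2 ∈ PP H v u)).card :=
        Nat.mul_le_mul_left _ h2
    _ = ∑ x : V × V × V × V, (Fintype.card W) ^ 4 * (univ.filter (fun φ : V → W => φ x.1 = u ∧ φ x.2.1 = v ∧ φ x.2.2.1 ∈ PP H u v ∧ φ x.2.2.2 ∈ PP H v u)).card := by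
        rw [mul_sum]
    _ ≤ ∑ x : V × V × V × V, ((PP H u v).card * (PP H v u).card * (Fintype.card W) ^ (Fintype.card V)) :=
        sum_le_sum (fun x _ => fiber_bound H u v huv _ _ _ _)
    _ = _ := by
        rw [sum_const, smul_eq_mul, card_univ, Fintype.card_prod, Fintype.card_prod, Fintype.card_prod]
        ring

/-- nested neighbourhoods -/
def Nested (H : SimpleGraph W) : Prop :=
  ∀ u v : W, u ≠ v → PP H u v = ∅ ∨ PP H v u = ∅

theorem exists_nested (G : SimpleGraph V) (H₀ : SimpleGraph W) [Nonempty W] :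
    ∃ H : SimpleGraph W, Nested H ∧ EE H = EE H₀ ∧
      2 * (Fintype.card W : ℤ) ^ 4 * (HM G H₀).card ≤ 2 * (Fintype.card W : ℤ) ^ 4 * (HM G H).card
        + ((Fintype.card V : ℤ) ^ 4 + 1) * (Fintype.card W : ℤ) ^ (Fintype.card V) * (Fintype.card W : ℤ) ^ 3 := by
  set n : ℤ := (Fintype.card W : ℤ) with hn
  have hn0 : 0 < n := by rw [hn]; exact_mod_cast Fintype.card_pos
  set Lam : SimpleGraph W → ℤ := fun H => 2 * n ^ 4 * (HM G H).card
    + ((Fintype.card V : ℤ) ^ 4 + 1) * n ^ (Fintype.card V) * Phi H with hLam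
  obtain ⟨H, hH1, hH2⟩ := Set.exists_max_image {H : SimpleGraph W | EE H = EE H₀} Lam
    (Set.toFinite _) ⟨H₀, rfl⟩
  refine ⟨H, ?_, hH1, ?_⟩
  · intro u v huv
    by_contra hcon
    push Not at hcon
    obtain ⟨c1, c2⟩ := hcon
    have p1 : 0 < (PP H u v).card := card_pos.2 c1
    have p2 : 0 < (PP H v u).card := card_pos.2 c2
    have h1 := hH2 (cmp H u v huv) (by simp only [Set.mem_ofPred_eq, EE_cmp]; exact hH1)
    simp only [hLam] at h1
    rw [Phi_cmp] at h1
    have h2 := good_inj G H u v huv
    have h3 := Bad_bound G H u v huv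
    have h2' : ((HM G H).card : ℤ) ≤ (HM G (cmp H u v huv)).card + (Bad G H u v).card := by exact_mod_cast h2
    have h3' : n ^ 4 * ((Bad G H u v).card : ℤ) ≤ (Fintype.card V : ℤ) ^ 4 * ((PP H u v).card * (PP H v u).card * n ^ (Fintype.card V)) := by
      rw [hn]; exact_mod_cast h3
    have h4 : n ^ 4 * ((HM G H).card : ℤ) ≤ n ^ 4 * ((HM G (cmp H u v huv)).card + (Bad G H u v).card) :=
      mul_le_mul_of_nonneg_left h2' (by positivity)
    have p3 : (0:ℤ) < n ^ (Fintype.card V) * ((PP H u v).card * (PP H v u).card) := by positivity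
    nlinarith
  · have h1 := hH2 H₀ rfl
    simp only [hLam] at h1
    have h2 := Phi_le H
    have h3 := Phi_nonneg H₀
    rw [← hn] at h2
    have h4 : (0:ℤ) ≤ ((Fintype.card V : ℤ) ^ 4 + 1) * n ^ (Fintype.card V) := by positivity
    nlinarith [mul_le_mul_of_nonneg_left h2 h4, mul_nonneg h4 h3]

end Pool.Agent.H488R3
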