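import Mathlib

set_option autoImplicit false

namespace Pool.Agent.H488R3

open Finset

variable {V : Type} [DecidableEq V] (G : SimpleGraph V) [DecidableRel G.Adj]

/-- isolated vertices of the induced subgraph on `U` -/
def iso (U : Finset V) : Finset V := U.filter (fun v => ∀ w ∈ U, ¬ G.Adj v w)

/-- neighbours in `U` of the set `S` -/
def nb (U S : Finset V) : Finset V := U.filter (fun w => ∃ v ∈ S, G.Adj v w)

/-- independent sets -/
def Ind (S : Finset V) : Prop := ∀ v ∈ S, ∀ w ∈ S, ¬ G.Adj v w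

instance (S : Finset V) : Decidable (Ind G S) := by unfold Ind; infer_instance

/-- adding a dominating clique block of mass `r` -/
def opD (r : ℝ) (Φ : Finset V → ℝ) (U : Finset V) : ℝ :=
  ∑ S ∈ U.powerset, r ^ S.card * Φ (U \ S)

/-- adding an isolated independent block of mass `b` -/
def opI (b : ℝ) (Φ : Finset V → ℝ) (U : Finset V) : ℝ :=
  ∑ S ∈ (iso G U).powerset, b ^ S.card * Φ (U \ S)

def opM (x y : ℝ) (Φ : Finset V → ℝ) (U : Finset V) : ℝ :=
  ∑ S ∈ U.powerset.filter (fun S => Ind G S),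
    y ^ S.card * x ^ (nb G U S).card * Φ (U \ (S ∪ nb G U S))

def opN (x y : ℝ) (Φ : Finset V → ℝ) (U : Finset V) : ℝ :=
  ∑ S ∈ (U \ iso G U).powerset.filter (fun S => Ind G S),
    y ^ S.card * x ^ (nb G U S).card * Φ (U \ (S ∪ nb G U S))

lemma iso_subset (U : Finset V) : iso G U ⊆ U := filter_subset _ _

lemma sum_powerset_sdiff (U : Finset V) (f : Finset V → Finset V → ℝ) :
    ∑ S ∈ U.powerset, ∑ T ∈ (U \ S).powerset, f S T
      = ∑ T ∈ U.powerset, ∑ S ∈ T.powerset, f S (T \ S) := by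
  rw [sum_sigma', sum_sigma']
  refine sum_bij' (fun p _ => ⟨p.1 ∪ p.2, p.1⟩) (fun q _ => ⟨q.2, q.1 \ q.2⟩) ?_ ?_ ?_ ?_ ?_
  · rintro ⟨S, T⟩ h
    simp only [mem_sigma, mem_powerset] at h ⊢
    exact ⟨union_subset h.1 (h.2.trans sdiff_subset), subset_union_left⟩
  · rintro ⟨T, S⟩ h
    simp only [mem_sigma, mem_powerset] at h ⊢
    exact ⟨h.2.trans h.1, sdiff_subset_sdiff h.1 le_rfl⟩
  · rintro ⟨S, T⟩ h
    simp only [mem_sigma, mem_powerset] at h
    have : (S ∪ T) \ S = T := by
      rw [union_sdiff_left, Finset.sdiff_eq_self_iff_disjoint]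
      exact (disjoint_of_subset_left h.2 sdiff_disjoint)
    simp [this]
  · rintro ⟨T, S⟩ h
    simp only [mem_sigma, mem_powerset] at h
    have : S ∪ T \ S = T := union_sdiff_of_subset h.2
    simp [this]
  · rintro ⟨S, T⟩ h
    simp only [mem_sigma, mem_powerset] at h
    have : (S ∪ T) \ S = T := by
      rw [union_sdiff_left, Finset.sdiff_eq_self_iff_disjoint]
      exact (disjoint_of_subset_left h.2 sdiff_disjoint)
    simp [this]

lemma opD_opD (r s : ℝ) (Φ : Finset V → ℝ) : opD r (opD s Φ) = opD (r + s) Φ := by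
  funext U
  unfold opD
  simp_rw [mul_sum]
  rw [sum_powerset_sdiff U (fun S T => r ^ S.card * (s ^ T.card * Φ ((U \ S) \ T)))]
  apply sum_congr rfl
  intro T hT
  rw [mem_powerset] at hT
  rw [← Finset.sum_pow_mul_eq_add_pow, sum_mul]
  apply sum_congr rfl
  intro S hS
  rw [mem_powerset] at hS
  rw [card_sdiff_of_subset hS, sdiff_sdiff_left]
  have : S ⊔ T \ S = T := union_sdiff_of_subset hS
  rw [this]
  ring

lemma iso_sdiff {U Z : Finset V} (hZ : Z ⊆ iso G U) : iso G (U \ Z) = iso G U \ Z := by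
  ext v
  simp only [iso, mem_filter, mem_sdiff]
  constructor
  · rintro ⟨⟨h1, h2⟩, h3⟩
    refine ⟨⟨h1, ?_⟩, h2⟩
    intro w hw hvw
    by_cases hwZ : w ∈ Z
    · have := hZ hwZ
      simp only [iso, mem_filter] at this
      exact this.2 v h1 hvw.symm
    · exact h3 w ⟨hw, hwZ⟩ hvw
  · rintro ⟨⟨h1, h2⟩, h3⟩
    exact ⟨⟨h1, h3⟩, fun w hw => h2 w hw.1⟩

lemma opI_opI (r s : ℝ) (Φ : Finset V → ℝ) : opI G r (opI G s Φ) = opI G (r + s) Φ := by
  funext U
  unfold opI
  simp_rw [mul_sum]
  have h1 : ∑ S ∈ (iso G U).powerset, ∑ T ∈ (iso G (U \ S)).powerset,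
      r ^ S.card * (s ^ T.card * Φ ((U \ S) \ T))
      = ∑ S ∈ (iso G U).powerset, ∑ T ∈ (iso G U \ S).powerset,
      r ^ S.card * (s ^ T.card * Φ ((U \ S) \ T)) := by
    apply sum_congr rfl
    intro S hS
    rw [mem_powerset] at hS
    rw [iso_sdiff G hS]
  rw [h1, sum_powerset_sdiff (iso G U) (fun S T => r ^ S.card * (s ^ T.card * Φ ((U \ S) \ T)))]
  apply sum_congr rfl
  intro T hT
  rw [mem_powerset] at hT
  rw [← Finset.sum_pow_mul_eq_add_pow, sum_mul]
  apply sum_congr rfl
  intro S hS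
  rw [mem_powerset] at hS
  rw [card_sdiff_of_subset hS, sdiff_sdiff_left]
  have : S ⊔ T \ S = T := union_sdiff_of_subset hS
  rw [this]
  ring

lemma opD_zero (Φ : Finset V → ℝ) : opD 0 Φ = Φ := by
  funext U
  unfold opD
  rw [sum_eq_single ∅]
  · simp
  · intro S _ hS
    have : S.card ≠ 0 := by simpa [card_eq_zero] using hS
    simp [this]
  · intro h; simp at h

lemma opI_zero (Φ : Finset V → ℝ) : opI G 0 Φ = Φ := by
  funext U
  unfold opI
  rw [sum_eq_single ∅]
  · simp
  · intro S _ hS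
    have : S.card ≠ 0 := by simpa [card_eq_zero] using hS
    simp [this]
  · intro h; simp at h

lemma nb_disj {U S : Finset V} (hS : Ind G S) : Disjoint S (nb G U S) := by
  rw [Finset.disjoint_left]
  intro v hv hv2
  simp only [nb, mem_filter] at hv2
  obtain ⟨_, w, hw, hwv⟩ := hv2
  exact hS w hw v hv hwv

lemma subset_iso_iff {U S T : Finset V} :
    T ⊆ iso G (U \ S) ↔ T ⊆ U \ S ∧ Ind G T ∧ nb G U T ⊆ S := by
  constructor
  · intro h
    have h1 : T ⊆ U \ S := h.trans (iso_subset G _)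
    refine ⟨h1, ?_, ?_⟩
    · intro v hv w hw hvw
      have := h hv
      simp only [iso, mem_filter] at this
      exact this.2 w (h1 hw) hvw
    · intro w hw
      simp only [nb, mem_filter] at hw
      obtain ⟨hwU, v, hv, hvw⟩ := hw
      by_contra hwS
      have := h hv
      simp only [iso, mem_filter] at this
      exact this.2 w (mem_sdiff.2 ⟨hwU, hwS⟩) hvw
  · rintro ⟨h1, h2, h3⟩ v hv
    simp only [iso, mem_filter]
    refine ⟨h1 hv, ?_⟩
    intro w hw hvw
    rw [mem_sdiff] at hw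
    apply hw.2
    apply h3
    simp only [nb, mem_filter]
    exact ⟨hw.1, v, hv, hvw⟩

lemma opD_opI (x y : ℝ) (Φ : Finset V → ℝ) :
    opD x (opI G y Φ) = opM G x y (opD x Φ) := by
  funext U
  unfold opD opI opM
  simp_rw [mul_sum]
  rw [sum_sigma', sum_sigma']
  refine sum_bij' (fun p _ => ⟨p.2, p.1 \ nb G U p.2⟩) (fun q _ => ⟨q.2 ∪ nb G U q.1, q.1⟩) ?_ ?_ ?_ ?_ ?_
  · rintro ⟨S, T⟩ h
    simp only [mem_sigma, mem_powerset, subset_iso_iff, mem_filter] at h ⊢
    obtain ⟨h1, h2, h3, h4⟩ := h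
    refine ⟨⟨h2.trans sdiff_subset, h3⟩, ?_⟩
    intro v hv
    rw [mem_sdiff] at hv ⊢
    refine ⟨h1 hv.1, ?_⟩
    rw [mem_union, not_or]
    refine ⟨fun hvT => ?_, hv.2⟩
    exact (mem_sdiff.1 (h2 hvT)).2 hv.1
  · rintro ⟨T, S⟩ h
    simp only [mem_sigma, mem_powerset, subset_iso_iff, mem_filter] at h ⊢
    obtain ⟨⟨h1, h2⟩, h3⟩ := h
    refine ⟨union_subset (h3.trans sdiff_subset) (filter_subset _ _), ?_, h2, subset_union_right⟩
    intro v hv
    rw [mem_sdiff, mem_union, not_or]
    refine ⟨h1 hv, ?_, ?_⟩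
    · intro hvS
      exact (mem_sdiff.1 (h3 hvS)).2 (mem_union_left _ hv)
    · exact Finset.disjoint_left.1 (nb_disj G h2) hv
  · rintro ⟨S, T⟩ h
    simp only [mem_sigma, mem_powerset, subset_iso_iff] at h
    have : S \ nb G U T ∪ nb G U T = S := sdiff_union_of_subset h.2.2.2
    simp [this]
  · rintro ⟨T, S⟩ h
    simp only [mem_sigma, mem_powerset, mem_filter] at h
    have : (S ∪ nb G U T) \ nb G U T = S := by
      rw [union_sdiff_right, Finset.sdiff_eq_self_iff_disjoint]
      rw [Finset.disjoint_left]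
      intro v hv hv2
      exact (mem_sdiff.1 (h.2 hv)).2 (mem_union_right _ hv2)
    simp [this]
  · rintro ⟨S, T⟩ h
    simp only [mem_sigma, mem_powerset, subset_iso_iff] at h
    obtain ⟨h1, h2, h3, h4⟩ := h
    have e1 : (U \ (T ∪ nb G U T)) \ (S \ nb G U T) = (U \ S) \ T := by
      ext v
      simp only [mem_sdiff, mem_union]
      have := @h4 v
      tauto
    simp only
    rw [e1]
    have e2 : S.card = (nb G U T).card + (S \ nb G U T).card := by
      rw [card_sdiff_of_subset h4]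
      have := card_le_card h4
      omega
    rw [e2, pow_add]
    ring

lemma nb_sdiff_iso {U Z S : Finset V} (hZ : Z ⊆ iso G U) (hS : S ⊆ U) : nb G (U \ Z) S = nb G U S := by
  ext v
  simp only [nb, mem_filter, mem_sdiff]
  constructor
  · rintro ⟨⟨h1, h2⟩, h3⟩; exact ⟨h1, h3⟩
  · rintro ⟨h1, w, hw, hwv⟩
    refine ⟨⟨h1, ?_⟩, w, hw, hwv⟩
    intro hvZ
    have := hZ hvZ
    simp only [iso, mem_filter] at this
    exact this.2 w (hS hw) hwv.symm

lemma opM_eq (x y : ℝ) (Φ : Finset V → ℝ) :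
    opM G x y Φ = opI G y (opN G x y Φ) := by
  funext U
  unfold opI opM opN
  simp_rw [mul_sum]
  rw [sum_sigma']
  symm
  refine sum_bij' (fun p _ => p.1 ∪ p.2) (fun S _ => ⟨S ∩ iso G U, S \ iso G U⟩) ?_ ?_ ?_ ?_ ?_
  · rintro ⟨Z, S⟩ h
    simp only [mem_sigma, mem_powerset, mem_filter] at h ⊢
    obtain ⟨h1, h2, h3⟩ := h
    rw [iso_sdiff G h1] at h2
    have hZU : Z ⊆ U := h1.trans (iso_subset G U)
    have hSU : S ⊆ U := (h2.trans sdiff_subset).trans sdiff_subset
    refine ⟨union_subset hZU hSU, ?_⟩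
    intro v hv w hw hvw
    rw [mem_union] at hv hw
    rcases hv with hv | hv
    · have := h1 hv
      simp only [iso, mem_filter] at this
      rcases hw with hw | hw
      · exact this.2 w (hZU hw) hvw
      · exact this.2 w (hSU hw) hvw
    · rcases hw with hw | hw
      · have := h1 hw
        simp only [iso, mem_filter] at this
        exact this.2 v (hSU hv) hvw.symm
      · exact h3 v hv w hw hvw
  · intro S h
    simp only [mem_sigma, mem_powerset, mem_filter] at h ⊢
    obtain ⟨h1, h2⟩ := h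
    refine ⟨inter_subset_right, ?_, ?_⟩
    · rw [iso_sdiff G inter_subset_right]
      intro v hv
      simp only [mem_sdiff, mem_inter] at hv ⊢
      have := h1 hv.1
      tauto
    · intro v hv w hw
      exact h2 v (mem_sdiff.1 hv).1 w (mem_sdiff.1 hw).1
  · rintro ⟨Z, S⟩ h
    simp only [mem_sigma, mem_powerset, mem_filter] at h
    obtain ⟨h1, h2, h3⟩ := h
    rw [iso_sdiff G h1] at h2
    have e1 : (Z ∪ S) ∩ iso G U = Z := by
      ext v
      have a1 := @h1 v
      have a2 := @h2 v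
      simp only [mem_sdiff, mem_inter, mem_union] at a2 ⊢
      tauto
    have e2 : (Z ∪ S) \ iso G U = S := by
      ext v
      have a1 := @h1 v
      have a2 := @h2 v
      simp only [mem_sdiff, mem_union] at a2 ⊢
      tauto
    simp [e1, e2]
  · intro S h
    simp only [mem_powerset, mem_filter] at h
    ext v
    simp only [mem_union, mem_inter, mem_sdiff]
    tauto
  · rintro ⟨Z, S⟩ h
    simp only [mem_sigma, mem_powerset, mem_filter] at h
    obtain ⟨h1, h2, h3⟩ := h
    rw [iso_sdiff G h1] at h2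
    have hSU : S ⊆ U := (h2.trans sdiff_subset).trans sdiff_subset
    have hd : Disjoint Z S := by
      rw [Finset.disjoint_left]
      intro v hv hv2
      have a2 := h2 hv2
      simp only [mem_sdiff] at a2
      exact a2.1.2 hv
    simp only
    rw [nb_sdiff_iso G h1 hSU]
    have e3 : nb G U (Z ∪ S) = nb G U S := by
      ext v
      simp only [nb, mem_filter, mem_union]
      constructor
      · rintro ⟨hv, w, hw, hwv⟩
        refine ⟨hv, w, ?_, hwv⟩
        rcases hw with hw | hw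
        · have := h1 hw
          simp only [iso, mem_filter] at this
          exact absurd hwv (this.2 v hv)
        · exact hw
      · rintro ⟨hv, w, hw, hwv⟩
        exact ⟨hv, w, Or.inr hw, hwv⟩
    rw [e3, card_union_of_disjoint hd, pow_add]
    have e4 : (U \ Z) \ (S ∪ nb G U S) = U \ (Z ∪ S ∪ nb G U S) := by
      ext v
      simp only [mem_sdiff, mem_union]
      tauto
    rw [e4]
    ring

/-- the four-block identity -/
lemma four_block (A B x y : ℝ) (Φ : Finset V → ℝ) :
    opI G (B - y) (opD x (opI G y (opD (A - x) Φ))) = opI G B (opN G x y (opD A Φ)) := by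
  rw [opD_opI, opM_eq, opI_opI, opD_opD]
  congr 2
  · ring
  · congr 1; ring

end Pool.Agent.H488R3
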