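import Mathlib
import Pool.Agent.H488R3.Ops

set_option autoImplicit false

namespace Pool.Agent.H488R3

open Finset

variable {V : Type} [DecidableEq V] (G : SimpleGraph V) [DecidableRel G.Adj]

/-- independent subsets of `U` -/
def indS (U : Finset V) : Finset (Finset V) := U.powerset.filter (fun S => Ind G S)

lemma mem_indS {U S : Finset V} : S ∈ indS G U ↔ S ⊆ U ∧ Ind G S := by
  simp [indS]

def ext (U I : Finset V) : Finset V := U \ (I ∪ nb G U I)

lemma mem_ext {U I : Finset V} {v : V} :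
    v ∈ ext G U I ↔ v ∈ U ∧ v ∉ I ∧ ∀ w ∈ I, ¬ G.Adj w v := by
  simp only [ext, nb, mem_sdiff, mem_union, mem_filter, not_or, not_and, not_exists]
  constructor
  · rintro ⟨h1, h2, h3⟩; exact ⟨h1, h2, fun w hw => h3 h1 w hw⟩
  · rintro ⟨h1, h2, h3⟩; exact ⟨h1, h2, fun _ w hw => h3 w hw⟩

lemma sum_erase (U : Finset V) (F : Finset V → V → ℝ) :
    ∑ J ∈ indS G U, ∑ v ∈ J, F (J.erase v) v = ∑ I ∈ indS G U, ∑ v ∈ ext G U I, F I v := by
  rw [sum_sigma', sum_sigma']
  refine sum_bij' (fun p _ => ⟨p.1.erase p.2, p.2⟩) (fun q _ => ⟨insert q.2 q.1, q.2⟩) ?_ ?_ ?_ ?_ ?_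
  · rintro ⟨J, v⟩ h
    simp only [mem_sigma, mem_indS, mem_ext] at h ⊢
    obtain ⟨⟨h1, h2⟩, h3⟩ := h
    refine ⟨⟨(erase_subset _ _).trans h1, ?_⟩, h1 h3, by simp, ?_⟩
    · intro x hx y hy
      exact h2 x (mem_of_mem_erase hx) y (mem_of_mem_erase hy)
    · intro w hw
      exact h2 w (mem_of_mem_erase hw) v h3
  · rintro ⟨I, v⟩ h
    simp only [mem_sigma, mem_indS, mem_ext] at h ⊢
    obtain ⟨⟨h1, h2⟩, h3, h4, h5⟩ := h
    refine ⟨⟨insert_subset h3 h1, ?_⟩, mem_insert_self _ _⟩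
    intro x hx y hy hxy
    rw [mem_insert] at hx hy
    rcases hx with hx | hx <;> rcases hy with hy | hy
    · subst hx; subst hy; exact G.loopless.irrefl _ hxy
    · subst hx; exact h5 y hy hxy.symm
    · subst hy; exact h5 x hx hxy
    · exact h2 x hx y hy hxy
  · rintro ⟨J, v⟩ h
    simp only [mem_sigma] at h
    simp [insert_erase h.2]
  · rintro ⟨I, v⟩ h
    simp only [mem_sigma, mem_indS, mem_ext] at h
    simp [erase_insert h.2.2.1]
  · rintro ⟨J, v⟩ h
    rfl

/-- weight -/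
def wt (U : Finset V) (r b : ℝ) (J : Finset V) : ℝ := r ^ (U.card - J.card) * b ^ J.card

lemma rel (U : Finset V) (r b : ℝ) (φ : Finset V → ℝ) :
    r * ∑ J ∈ indS G U, wt U r b J * ∑ v ∈ J, φ (J.erase v)
      = b * ∑ I ∈ indS G U, wt U r b I * (φ I * ((ext G U I).card : ℝ)) := by
  have h := sum_erase G U (fun I v => r * (wt U r b (insert v I) * φ I))
  have h1 : ∑ J ∈ indS G U, ∑ v ∈ J, r * (wt U r b (insert v (J.erase v)) * φ (J.erase v))
      = r * ∑ J ∈ indS G U, wt U r b J * ∑ v ∈ J, φ (J.erase v) := by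
    rw [mul_sum]
    apply sum_congr rfl
    intro J _
    rw [mul_sum, mul_sum]
    apply sum_congr rfl
    intro v hv
    rw [insert_erase hv]
  have h2 : ∑ I ∈ indS G U, ∑ v ∈ ext G U I, r * (wt U r b (insert v I) * φ I)
      = b * ∑ I ∈ indS G U, wt U r b I * (φ I * ((ext G U I).card : ℝ)) := by
    rw [mul_sum]
    apply sum_congr rfl
    intro I hI
    rw [mem_indS] at hI
    have : ∀ v ∈ ext G U I, r * (wt U r b (insert v I) * φ I) = b * (wt U r b I * φ I) := by
      intro v hv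
      rw [mem_ext] at hv
      have hc : (insert v I).card = I.card + 1 := card_insert_of_notMem hv.2.1
      have hle : (insert v I).card ≤ U.card := card_le_card (insert_subset hv.1 hI.1)
      unfold wt
      rw [hc] at hle ⊢
      have h3 : U.card - I.card = (U.card - (I.card + 1)) + 1 := by omega
      rw [h3, pow_succ, pow_succ]
      ring
    rw [sum_congr rfl this, sum_const, nsmul_eq_mul]
    ring
  rw [← h1, ← h2]
  exact h

lemma card_ext {U I : Finset V} (hI : I ∈ indS G U) :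
    ((ext G U I).card : ℝ) = (U.card : ℝ) - I.card - (nb G U I).card := by
  rw [mem_indS] at hI
  unfold ext
  have hsub : I ∪ nb G U I ⊆ U := union_subset hI.1 (filter_subset _ _)
  have h1 : (I ∪ nb G U I).card = I.card + (nb G U I).card :=
    card_union_of_disjoint (nb_disj G hI.2)
  have h2 := card_le_card hsub
  rw [card_sdiff_of_subset hsub, Nat.cast_sub h2, h1]
  push_cast
  ring

lemma sum_nb {U J : Finset V} (hJ : J.Nonempty) :
    ((J.card : ℝ) - 1) * (nb G U J).card ≤ ∑ v ∈ J, ((nb G U (J.erase v)).card : ℝ) := by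
  have h1 : ∀ v ∈ J, ((nb G U (J.erase v)).card : ℝ)
      = ∑ w ∈ nb G U J, (if w ∈ nb G U (J.erase v) then (1:ℝ) else 0) := by
    intro v _
    rw [sum_ite_mem, sum_const, nsmul_eq_mul, mul_one]
    congr 2
    ext w
    simp only [mem_inter, nb, mem_filter, mem_erase]
    constructor
    · rintro ⟨h1, x, ⟨h2, h3⟩, h4⟩
      exact ⟨⟨h1, x, h3, h4⟩, h1, x, ⟨h2, h3⟩, h4⟩
    · rintro ⟨_, h⟩; exact h
  rw [sum_congr rfl h1, sum_comm]
  have h2 : ∀ w ∈ nb G U J, ((J.card : ℝ) - 1) ≤ ∑ v ∈ J, (if w ∈ nb G U (J.erase v) then (1:ℝ) else 0) := by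
    intro w hw
    simp only [nb, mem_filter] at hw
    obtain ⟨hwU, x, hx, hxw⟩ := hw
    have h3 : ∑ v ∈ J.erase x, (1:ℝ) ≤ ∑ v ∈ J, (if w ∈ nb G U (J.erase v) then (1:ℝ) else 0) := by
      rw [← add_sum_erase J _ hx]
      have : ∑ v ∈ J.erase x, (1:ℝ) = ∑ v ∈ J.erase x, (if w ∈ nb G U (J.erase v) then (1:ℝ) else 0) := by
        apply sum_congr rfl
        intro v hv
        rw [mem_erase] at hv
        rw [if_pos]
        simp only [nb, mem_filter, mem_erase]
        exact ⟨hwU, x, ⟨hv.1.symm, hx⟩, hxw⟩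
      rw [this]
      have : (0:ℝ) ≤ if w ∈ nb G U (J.erase x) then (1:ℝ) else 0 := by split_ifs <;> norm_num
      linarith
    rw [sum_const, nsmul_eq_mul, mul_one, card_erase_of_mem hx,
      Nat.cast_sub (card_pos.2 hJ)] at h3
    simpa using h3
  calc ((J.card : ℝ) - 1) * (nb G U J).card = ∑ w ∈ nb G U J, ((J.card : ℝ) - 1) := by
        rw [sum_const, nsmul_eq_mul]; ring
    _ ≤ _ := sum_le_sum h2

lemma int_consec (z : ℤ) : (0:ℝ) ≤ (z:ℝ) * ((z:ℝ) + 1) := by
  have h : 0 ≤ z * (z + 1) := by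
    rcases le_or_gt 0 z with h | h
    · positivity
    · have h1 : z + 1 ≤ 0 := by omega
      nlinarith
  exact_mod_cast h

/-- the key inequality -/
theorem key (U : Finset V) (r b : ℝ) (hr : 0 ≤ r) (hb : 0 ≤ b) :
    0 ≤ ∑ J ∈ indS G U, wt U r b J *
      ((((U.card : ℝ) - J.card) * b - J.card * (r + b)) ^ 2 + ((U.card : ℝ) - J.card) * b * (r + b)
        + J.card * b ^ 2 - 2 * J.card * (r + b) ^ 2) := by
  have R1 := rel G U r b (fun _ => 1)
  have R2 := rel G U r b (fun I => (I.card : ℝ))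
  have R3 := rel G U r b (fun I => ((nb G U I).card : ℝ))
  set D : Finset V → ℝ := fun J => ∑ v ∈ J, ((nb G U (J.erase v)).card : ℝ) with hD
  have e1 : ∀ J ∈ indS G U, wt U r b J * ∑ v ∈ J, (1:ℝ) = wt U r b J * (J.card : ℝ) := by
    intro J _; simp
  have e2 : ∀ J ∈ indS G U, wt U r b J * ∑ v ∈ J, (((J.erase v).card : ℕ) : ℝ)
      = wt U r b J * ((J.card : ℝ) * ((J.card : ℝ) - 1)) := by
    intro J _
    congr 1
    rw [sum_congr rfl (g := fun _ => ((J.card : ℝ) - 1))]
    · rw [sum_const, nsmul_eq_mul]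
    · intro v hv
      rw [card_erase_of_mem hv, Nat.cast_sub (card_pos.2 ⟨v, hv⟩)]
      simp
  rw [sum_congr rfl e1] at R1
  rw [sum_congr rfl e2] at R2
  have f1 : ∀ J ∈ indS G U, wt U r b J * (1 * ((ext G U J).card : ℝ))
      = wt U r b J * ((U.card : ℝ) - J.card - (nb G U J).card) := by
    intro J hJ; rw [card_ext G hJ]; ring
  have f2 : ∀ J ∈ indS G U, wt U r b J * ((J.card : ℝ) * ((ext G U J).card : ℝ))
      = wt U r b J * ((J.card : ℝ) * ((U.card : ℝ) - J.card - (nb G U J).card)) := by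
    intro J hJ; rw [card_ext G hJ]
  have f3 : ∀ J ∈ indS G U, wt U r b J * (((nb G U J).card : ℝ) * ((ext G U J).card : ℝ))
      = wt U r b J * (((nb G U J).card : ℝ) * ((U.card : ℝ) - J.card - (nb G U J).card)) := by
    intro J hJ; rw [card_ext G hJ]
  rw [sum_congr rfl f1] at R1
  rw [sum_congr rfl f2] at R2
  rw [sum_congr rfl f3] at R3
  have hid : ∑ J ∈ indS G U, wt U r b J *
      ((((U.card : ℝ) - J.card) * b - J.card * (r + b)) ^ 2 + ((U.card : ℝ) - J.card) * b * (r + b)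
        + J.card * b ^ 2 - 2 * J.card * (r + b) ^ 2)
      = ∑ J ∈ indS G U, wt U r b J * (b ^ 2 * ((((nb G U J).card : ℝ) - J.card) * (((nb G U J).card : ℝ) - J.card + 1))
        + b * r * (((nb G U J).card : ℝ) - J.card * (nb G U J).card + D J)) := by
    rw [mul_sum, mul_sum] at R1 R2 R3
    have S1 := sub_eq_zero.2 R1
    have S2 := sub_eq_zero.2 R2
    have S3 := sub_eq_zero.2 R3
    rw [← sum_sub_distrib] at S1 S2 S3
    rw [← sub_eq_zero, ← sum_sub_distrib]
    have : ∀ J ∈ indS G U, wt U r b J *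
      ((((U.card : ℝ) - J.card) * b - J.card * (r + b)) ^ 2 + ((U.card : ℝ) - J.card) * b * (r + b)
        + J.card * b ^ 2 - 2 * J.card * (r + b) ^ 2) - wt U r b J * (b ^ 2 * ((((nb G U J).card : ℝ) - J.card) * (((nb G U J).card : ℝ) - J.card + 1))
        + b * r * (((nb G U J).card : ℝ) - J.card * (nb G U J).card + D J))
        = (r + 3 * b) * (r * (wt U r b J * ((J.card : ℝ) * ((J.card : ℝ) - 1))) - b * (wt U r b J * ((J.card : ℝ) * ((U.card : ℝ) - J.card - (nb G U J).card))))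
        + (- (r + ((U.card : ℝ) + 1) * b)) * (r * (wt U r b J * (J.card : ℝ)) - b * (wt U r b J * ((U.card : ℝ) - J.card - (nb G U J).card)))
        + (- b) * (r * (wt U r b J * D J) - b * (wt U r b J * (((nb G U J).card : ℝ) * ((U.card : ℝ) - J.card - (nb G U J).card)))) := by
      intro J _
      ring
    rw [sum_congr rfl this, sum_add_distrib, sum_add_distrib, ← mul_sum, ← mul_sum, ← mul_sum, S1, S2]
    simp only [hD]
    rw [S3]
    ring
  rw [hid]
  apply sum_nonneg
  intro J hJ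
  have hw : 0 ≤ wt U r b J := by unfold wt; positivity
  apply mul_nonneg hw
  have g1 : (0:ℝ) ≤ (((nb G U J).card : ℝ) - J.card) * (((nb G U J).card : ℝ) - J.card + 1) := by
    have := int_consec (((nb G U J).card : ℤ) - J.card)
    push_cast at this
    exact this
  have g2 : (0:ℝ) ≤ ((nb G U J).card : ℝ) - J.card * (nb G U J).card + D J := by
    rcases J.eq_empty_or_nonempty with h | h
    · subst h
      simp [hD]
    · have := sum_nb G (U := U) h
      simp only [hD]
      linarith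
  positivity

end Pool.Agent.H488R3
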