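import Mathlib
import Pool.Agent.H488R3.Key

set_option autoImplicit false

namespace Pool.Agent.H488R3

open Finset

variable {V : Type} [DecidableEq V] (G : SimpleGraph V) [DecidableRel G.Adj]

noncomputable def bb (k x : ℝ) : ℝ := Real.sqrt (x ^ 2 - k)
noncomputable def rr (k x : ℝ) : ℝ := x - Real.sqrt (x ^ 2 - k)

/-- hard-core sum along the curve `r^2 + 2 r b = k`, `r + b = x` -/
noncomputable def hcs (U : Finset V) (k x : ℝ) : ℝ := ∑ J ∈ indS G U, wt U (rr k x) (bb k x) J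

lemma bb_pos {k x : ℝ} (hk : 0 < k) (hx : Real.sqrt k < x) : 0 < bb k x := by
  unfold bb
  apply Real.sqrt_pos.2
  have h0 : 0 ≤ Real.sqrt k := Real.sqrt_nonneg _
  have : k = Real.sqrt k ^ 2 := (Real.sq_sqrt hk.le).symm
  nlinarith

lemma rr_nonneg {k x : ℝ} (hk : 0 ≤ k) (hx : Real.sqrt k ≤ x) : 0 ≤ rr k x := by
  unfold rr
  have h0 : 0 ≤ x := (Real.sqrt_nonneg _).trans hx
  have : Real.sqrt (x ^ 2 - k) ≤ x := by
    rw [Real.sqrt_le_left h0]; linarith
  linarith

lemma bb_nonneg (k x : ℝ) : 0 ≤ bb k x := Real.sqrt_nonneg _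

lemma rr_add_bb (k x : ℝ) : rr k x + bb k x = x := by unfold rr bb; ring

lemma bb_sq {k x : ℝ} (hk : 0 ≤ k) (hx : Real.sqrt k ≤ x) : bb k x ^ 2 = x ^ 2 - k := by
  unfold bb
  apply Real.sq_sqrt
  have h0 : 0 ≤ Real.sqrt k := Real.sqrt_nonneg _
  have : k = Real.sqrt k ^ 2 := (Real.sq_sqrt hk).symm
  nlinarith

lemma curve {k x : ℝ} (hk : 0 ≤ k) (hx : Real.sqrt k ≤ x) :
    rr k x ^ 2 + 2 * rr k x * bb k x = k := by
  have h1 := bb_sq hk hx
  have h2 : rr k x = x - bb k x := rfl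
  rw [h2]; nlinarith

lemma deriv_bb {k x : ℝ} (hk : 0 < k) (hx : Real.sqrt k < x) :
    HasDerivAt (bb k) (x / bb k x) x := by
  have hb := bb_pos hk hx
  have h1 : HasDerivAt (fun y : ℝ => y ^ 2 - k) (2 * x) x := by
    simpa using (hasDerivAt_pow 2 x).sub_const k
  have hne : x ^ 2 - k ≠ 0 := by
    have := bb_sq hk.le hx.le
    rw [← this]; positivity
  have h2 := h1.sqrt hne
  refine h2.congr_deriv ?_
  have h3 : bb k x = Real.sqrt (x ^ 2 - k) := rfl
  rw [← h3]
  field_simp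

lemma deriv_rr {k x : ℝ} (hk : 0 < k) (hx : Real.sqrt k < x) :
    HasDerivAt (rr k) (-(rr k x / bb k x)) x := by
  have hb := bb_pos hk hx
  have h1 := (hasDerivAt_id x).fun_sub (deriv_bb hk hx)
  have h2 : rr k x = x - bb k x := rfl
  refine HasDerivAt.congr_deriv h1 ?_
  rw [h2]
  field_simp
  ring

lemma deriv_bb_pow {k x : ℝ} (hk : 0 < k) (hx : Real.sqrt k < x) (j : ℕ) :
    HasDerivAt (fun y => bb k y ^ j) (bb k x ^ j * (j * x / bb k x ^ 2)) x := by
  have hb := bb_pos hk hx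
  refine ((deriv_bb hk hx).fun_pow j).congr_deriv ?_
  rcases j with _ | j
  · simp
  · simp only [Nat.add_sub_cancel]
    rw [pow_succ]
    field_simp

lemma deriv_rr_pow {k x : ℝ} (hk : 0 < k) (hx : Real.sqrt k < x) (a : ℕ) :
    HasDerivAt (fun y => rr k y ^ a) (rr k x ^ a * (-(a / bb k x))) x := by
  have hb := bb_pos hk hx
  refine ((deriv_rr hk hx).fun_pow a).congr_deriv ?_
  rcases a with _ | a
  · simp
  · simp only [Nat.add_sub_cancel]
    rw [pow_succ]
    field_simp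

noncomputable def cf (a j : ℕ) (k x : ℝ) : ℝ := -((a : ℝ) / bb k x) + j * x / bb k x ^ 2

lemma deriv_term {k x : ℝ} (hk : 0 < k) (hx : Real.sqrt k < x) (a j : ℕ) :
    HasDerivAt (fun y => rr k y ^ a * bb k y ^ j) (rr k x ^ a * bb k x ^ j * cf a j k x) x := by
  refine ((deriv_rr_pow hk hx a).fun_mul (deriv_bb_pow hk hx j)).congr_deriv ?_
  unfold cf
  ring

lemma deriv_cf {k x : ℝ} (hk : 0 < k) (hx : Real.sqrt k < x) (a j : ℕ) :
    HasDerivAt (cf a j k) ((a : ℝ) * x / bb k x ^ 3 + j / bb k x ^ 2 - 2 * j * x ^ 2 / bb k x ^ 4) x := by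
  have hb := bb_pos hk hx
  have h0 := deriv_bb hk hx
  have h1 : HasDerivAt (fun y => (a : ℝ) / bb k y) (-(a * (x / bb k x)) / bb k x ^ 2) x := by
    refine ((hasDerivAt_const x (a : ℝ)).fun_div h0 hb.ne').congr_deriv ?_
    simp
  have h2 : HasDerivAt (fun y => (j : ℝ) * y / bb k y ^ 2)
      (((j : ℝ) * bb k x ^ 2 - j * x * (2 * bb k x * (x / bb k x))) / (bb k x ^ 2) ^ 2) x := by
    have h3 : HasDerivAt (fun y => (j : ℝ) * y) (j : ℝ) x := by
      simpa using (hasDerivAt_id x).const_mul (j : ℝ)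
    have h4 : HasDerivAt (fun y => bb k y ^ 2) (2 * bb k x * (x / bb k x)) x := by
      refine (h0.fun_pow 2).congr_deriv ?_
      simp
    exact h3.fun_div h4 (by positivity)
  refine (h1.fun_neg.fun_add h2).congr_deriv ?_
  field_simp
  ring

lemma cont_rr (k : ℝ) : Continuous (rr k) := by unfold rr; fun_prop
lemma cont_bb (k : ℝ) : Continuous (bb k) := by unfold bb; fun_prop

theorem hcs_convex (U : Finset V) {k : ℝ} (hk : 0 < k) :
    ConvexOn ℝ (Set.Ici (Real.sqrt k)) (hcs G U k) := by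
  have hint : interior (Set.Ici (Real.sqrt k)) = Set.Ioi (Real.sqrt k) := interior_Ici
  apply convexOn_of_hasDerivWithinAt2_nonneg (convex_Ici _)
    (f' := fun x => ∑ J ∈ indS G U, rr k x ^ (U.card - J.card) * bb k x ^ J.card * cf (U.card - J.card) J.card k x)
    (f'' := fun x => ∑ J ∈ indS G U, (rr k x ^ (U.card - J.card) * bb k x ^ J.card * cf (U.card - J.card) J.card k x * cf (U.card - J.card) J.card k x
      + rr k x ^ (U.card - J.card) * bb k x ^ J.card * (((U.card - J.card : ℕ) : ℝ) * x / bb k x ^ 3 + J.card / bb k x ^ 2 - 2 * J.card * x ^ 2 / bb k x ^ 4)))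
  · apply Continuous.continuousOn
    unfold hcs wt
    exact continuous_finsetSum _ (fun J _ => ((cont_rr k).pow _).mul ((cont_bb k).pow _))
  · intro x hx
    rw [hint] at hx
    apply HasDerivAt.hasDerivWithinAt
    unfold hcs wt
    exact HasDerivAt.fun_sum (fun J _ => deriv_term hk hx _ _)
  · intro x hx
    rw [hint] at hx
    apply HasDerivAt.hasDerivWithinAt
    exact HasDerivAt.fun_sum (fun J _ => (deriv_term hk hx _ _).mul (deriv_cf hk hx _ _))
  · intro x hx
    rw [hint] at hx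
    have hb := bb_pos hk hx
    have hr := rr_nonneg hk.le (le_of_lt hx)
    have hkey := key G U (rr k x) (bb k x) hr hb.le
    rw [rr_add_bb] at hkey
    have hb4 : 0 < bb k x ^ 4 := by positivity
    have : ∑ J ∈ indS G U, (rr k x ^ (U.card - J.card) * bb k x ^ J.card * cf (U.card - J.card) J.card k x * cf (U.card - J.card) J.card k x
      + rr k x ^ (U.card - J.card) * bb k x ^ J.card * (((U.card - J.card : ℕ) : ℝ) * x / bb k x ^ 3 + J.card / bb k x ^ 2 - 2 * J.card * x ^ 2 / bb k x ^ 4))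
      = (∑ J ∈ indS G U, wt U (rr k x) (bb k x) J *
      ((((U.card : ℝ) - J.card) * bb k x - J.card * x) ^ 2 + ((U.card : ℝ) - J.card) * bb k x * x
        + J.card * bb k x ^ 2 - 2 * J.card * x ^ 2)) / bb k x ^ 4 := by
      rw [sum_div]
      apply sum_congr rfl
      intro J hJ
      rw [mem_indS] at hJ
      have hc := card_le_card hJ.1
      rw [Nat.cast_sub hc]
      unfold wt cf
      rw [Nat.cast_sub hc]
      field_simp
      ring
    rw [this]
    exact div_nonneg hkey hb4.le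

end Pool.Agent.H488R3
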