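import Mathlib
import Pool.Agent.H488R3.Conv

set_option autoImplicit false

namespace Pool.Agent.H488R3

open Finset

variable {V : Type} [DecidableEq V] (G : SimpleGraph V) [DecidableRel G.Adj]

lemma convexOn_sum {ι : Type} (s : Finset ι) (S : Set ℝ) (hS : Convex ℝ S) (f : ι → ℝ → ℝ)
    (h : ∀ i ∈ s, ConvexOn ℝ S (f i)) : ConvexOn ℝ S (fun x => ∑ i ∈ s, f i x) := by
  classical
  induction s using Finset.induction_on with
  | empty => simpa using convexOn_const (0:ℝ) hS
  | insert a s ha ih =>
    have h1 := ih (fun i hi => h i (mem_insert_of_mem hi))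
    have h2 := (h a (mem_insert_self _ _)).add h1
    refine h2.congr ?_
    intro x _
    simp [sum_insert ha]

lemma conv_opD {S : Set ℝ} (hS : Convex ℝ S) {r : ℝ} (hr : 0 ≤ r) (Φ : ℝ → Finset V → ℝ)
    (h : ∀ U, ConvexOn ℝ S (fun s => Φ s U)) (U : Finset V) :
    ConvexOn ℝ S (fun s => opD r (Φ s) U) := by
  unfold opD
  apply convexOn_sum _ _ hS
  intro T _
  exact (h (U \ T)).smul (c := r ^ T.card) (by positivity)

lemma conv_opI {S : Set ℝ} (hS : Convex ℝ S) {b : ℝ} (hb : 0 ≤ b) (Φ : ℝ → Finset V → ℝ)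
    (h : ∀ U, ConvexOn ℝ S (fun s => Φ s U)) (U : Finset V) :
    ConvexOn ℝ S (fun s => opI G b (Φ s) U) := by
  unfold opI
  apply convexOn_sum _ _ hS
  intro T _
  exact (h (U \ T)).smul (c := b ^ T.card) (by positivity)

lemma opD_nonneg {r : ℝ} (hr : 0 ≤ r) {Φ : Finset V → ℝ} (h : ∀ U, 0 ≤ Φ U) (U : Finset V) :
    0 ≤ opD r Φ U := by
  unfold opD
  exact sum_nonneg fun S _ => mul_nonneg (by positivity) (h _)

lemma opI_nonneg {b : ℝ} (hb : 0 ≤ b) {Φ : Finset V → ℝ} (h : ∀ U, 0 ≤ Φ U) (U : Finset V) :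
    0 ≤ opI G b Φ U := by
  unfold opI
  exact sum_nonneg fun S _ => mul_nonneg (by positivity) (h _)

lemma conv_opN {k : ℝ} (hk : 0 ≤ k) {Φ : Finset V → ℝ} (h : ∀ U, 0 ≤ Φ U) (U : Finset V) :
    ConvexOn ℝ (Set.Ioi 0) (fun x : ℝ => opN G x (k / x) Φ U) := by
  unfold opN
  apply convexOn_sum _ _ (convex_Ioi 0)
  intro S _
  have h1 := (convexOn_zpow (𝕜 := ℝ) ((nb G U S).card - S.card : ℤ)).smul
    (c := k ^ S.card * Φ (U \ (S ∪ nb G U S))) (mul_nonneg (by positivity) (h _))
  refine h1.congr ?_
  intro x hx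
  have hx' : (0:ℝ) < x := hx
  simp only [smul_eq_mul]
  rw [zpow_sub₀ hx'.ne', zpow_natCast, zpow_natCast, div_pow]
  field_simp

/-- move (a) -/
lemma conv_four {A B k : ℝ} (hA : 0 ≤ A) (hB : 0 ≤ B) (hk : 0 ≤ k) {Φ : Finset V → ℝ}
    (h : ∀ U, 0 ≤ Φ U) (U : Finset V) :
    ConvexOn ℝ (Set.Ioi 0)
      (fun x : ℝ => opI G (B - k / x) (opD x (opI G (k / x) (opD (A - x) Φ))) U) := by
  simp_rw [four_block]
  apply conv_opI G (convex_Ioi 0) hB
  intro W
  exact conv_opN G hk (opD_nonneg hA h) W

def phi0 (U : Finset V) : ℝ := if U = ∅ then 1 else 0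

lemma opI_phi0 (b : ℝ) (U : Finset V) :
    opI G b phi0 U = if Ind G U then b ^ U.card else 0 := by
  unfold opI phi0
  by_cases hU : Ind G U
  · rw [if_pos hU]
    have hiso : iso G U = U := by
      unfold iso
      rw [filter_eq_self]
      exact hU
    rw [hiso, sum_eq_single U]
    · simp
    · intro S hS hne
      rw [mem_powerset] at hS
      have : U \ S ≠ ∅ := by
        intro h
        rw [sdiff_eq_empty_iff_subset] at h
        exact hne (Subset.antisymm hS h)
      simp [this]
    · intro h; simp at h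
  · rw [if_neg hU]
    apply sum_eq_zero
    intro S hS
    rw [mem_powerset] at hS
    have : U \ S ≠ ∅ := by
      intro h
      rw [sdiff_eq_empty_iff_subset] at h
      apply hU
      intro v hv w hw
      have h1 := hS (h hv)
      simp only [iso, mem_filter] at h1
      exact h1.2 w hw
    simp [this]

lemma inner (r b : ℝ) (U : Finset V) :
    opD r (opI G b phi0) U = ∑ J ∈ indS G U, wt U r b J := by
  unfold opD
  simp_rw [opI_phi0]
  have h1 : ∑ J ∈ indS G U, wt U r b J = ∑ J ∈ U.powerset, if Ind G J then wt U r b J else 0 := by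
    unfold indS; rw [sum_filter]
  rw [h1]
  refine sum_bij' (fun S _ => U \ S) (fun S _ => U \ S) ?_ ?_ ?_ ?_ ?_
  · intro S _; simp
  · intro S _; simp
  · intro S hS; rw [mem_powerset] at hS; exact Finset.sdiff_sdiff_eq_self hS
  · intro S hS; rw [mem_powerset] at hS; exact Finset.sdiff_sdiff_eq_self hS
  · intro S hS
    rw [mem_powerset] at hS
    have hc := card_le_card hS
    split_ifs with h
    · unfold wt
      rw [card_sdiff_of_subset hS]
      congr 2
      omega
    · simp

/-- reduced inner function -/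
def red (h : Finset V → ℝ) (U : Finset V) : ℝ := if iso G U = ∅ then h U else 0

lemma iso_sdiff_iso (U : Finset V) : iso G (U \ iso G U) = ∅ := by
  rw [iso_sdiff G le_rfl]; simp

lemma opI_red (s : ℝ) (h : Finset V → ℝ) (U : Finset V) :
    opI G s (red G h) U = s ^ (iso G U).card * h (U \ iso G U) := by
  unfold opI red
  rw [sum_eq_single (iso G U)]
  · rw [iso_sdiff_iso]; simp
  · intro S hS hne
    rw [mem_powerset] at hS
    rw [iso_sdiff G hS]
    have : iso G U \ S ≠ ∅ := by
      intro h
      rw [sdiff_eq_empty_iff_subset] at h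
      exact hne (Subset.antisymm hS h)
    simp [this]
  · intro h; simp at h

lemma split (r b : ℝ) (U : Finset V) :
    ∑ J ∈ indS G U, wt U r b J
      = (r + b) ^ (iso G U).card * ∑ J ∈ indS G (U \ iso G U), wt (U \ iso G U) r b J := by
  have h1 : (r + b) ^ (iso G U).card = ∑ Z ∈ (iso G U).powerset, b ^ Z.card * r ^ ((iso G U).card - Z.card) := by
    rw [Finset.sum_pow_mul_eq_add_pow, add_comm]
  rw [h1, sum_mul_sum, ← sum_product']
  symm
  refine sum_bij' (fun p _ => p.1 ∪ p.2) (fun S _ => (S ∩ iso G U, S \ iso G U)) ?_ ?_ ?_ ?_ ?_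
  · rintro ⟨Z, S⟩ h
    simp only [mem_product, mem_powerset, mem_indS] at h ⊢
    obtain ⟨h1, h2, h3⟩ := h
    have hZU : Z ⊆ U := h1.trans (iso_subset G U)
    have hSU : S ⊆ U := h2.trans sdiff_subset
    refine ⟨union_subset hZU hSU, ?_⟩
    intro v hv w hw hvw
    rw [mem_union] at hv hw
    rcases hv with hv | hv
    · have := h1 hv
      simp only [iso, mem_filter] at this
      rcases hw with hw | hw
      · exact this.2 w (hZU hw) hvw
      · exact this.2 w (hSU hw) hvw
    · rcases hw with hw | hw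
      · have := h1 hw
        simp only [iso, mem_filter] at this
        exact this.2 v (hSU hv) hvw.symm
      · exact h3 v hv w hw hvw
  · intro S h
    simp only [mem_product, mem_powerset, mem_indS] at h ⊢
    obtain ⟨h1, h2⟩ := h
    refine ⟨inter_subset_right, sdiff_subset_sdiff h1 le_rfl, ?_⟩
    intro v hv w hw
    exact h2 v (mem_sdiff.1 hv).1 w (mem_sdiff.1 hw).1
  · rintro ⟨Z, S⟩ h
    simp only [mem_product, mem_powerset, mem_indS] at h
    obtain ⟨h1, h2, h3⟩ := h
    have e1 : (Z ∪ S) ∩ iso G U = Z := by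
      ext v
      have a1 := @h1 v
      have a2 := @h2 v
      simp only [mem_sdiff, mem_inter, mem_union] at a2 ⊢
      tauto
    have e2 : (Z ∪ S) \ iso G U = S := by
      ext v
      have a1 := @h1 v
      have a2 := @h2 v
      simp only [mem_sdiff, mem_union] at a2 ⊢
      tauto
    simp [e1, e2]
  · intro S h
    ext v
    simp only [mem_union, mem_inter, mem_sdiff]
    tauto
  · rintro ⟨Z, S⟩ h
    simp only [mem_product, mem_powerset, mem_indS] at h
    obtain ⟨h1, h2, h3⟩ := h
    have hd : Disjoint Z S := by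
      rw [Finset.disjoint_left]
      intro v hv hv2
      exact (mem_sdiff.1 (h2 hv2)).2 (h1 hv)
    unfold wt
    rw [card_union_of_disjoint hd, card_sdiff_of_subset (iso_subset G U)]
    have c1 := card_le_card h1
    have c2 := card_le_card h2
    rw [card_sdiff_of_subset (iso_subset G U)] at c2
    have c3 := card_le_card (iso_subset G U)
    have e : U.card - (Z.card + S.card) = ((iso G U).card - Z.card) + (U.card - (iso G U).card - S.card) := by
      omega
    rw [e, pow_add, pow_add]
    ring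

lemma three_block (c r b : ℝ) :
    opI G (c - (r + b)) (opD r (opI G b phi0)) = opI G c (red G (fun U => ∑ J ∈ indS G U, wt U r b J)) := by
  have h1 : opD r (opI G b phi0) = opI G (r + b) (red G (fun U => ∑ J ∈ indS G U, wt U r b J)) := by
    funext U
    rw [inner, opI_red, split]
  rw [h1, opI_opI]
  congr 1
  ring

/-- move (b) -/
lemma conv_three {c k : ℝ} (hc : 0 ≤ c) (hk : 0 < k) (U : Finset V) :
    ConvexOn ℝ (Set.Ici (Real.sqrt k))
      (fun x : ℝ => opI G (c - x) (opD (rr k x) (opI G (bb k x) phi0)) U) := by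
  have h1 : ∀ x : ℝ, opI G (c - x) (opD (rr k x) (opI G (bb k x) phi0))
      = opI G c (red G (fun U => hcs G U k x)) := by
    intro x
    have := three_block G c (rr k x) (bb k x)
    rw [rr_add_bb] at this
    exact this
  simp_rw [h1]
  apply conv_opI G (convex_Ici _) hc
  intro W
  unfold red
  split_ifs with h
  · exact hcs_convex G W hk
  · exact convexOn_const 0 (convex_Ici _)

end Pool.Agent.H488R3
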