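import Mathlib
import Pool.Agent.H488R3.Moves

set_option autoImplicit false

namespace Pool.Agent.H488R3

open Finset

variable {V : Type} [DecidableEq V] (G : SimpleGraph V) [DecidableRel G.Adj]

/-- blocks, outermost first; `true` = dominating clique block, `false` = isolated independent block -/
def evp : List (Bool × ℝ) → (Finset V → ℝ) → (Finset V → ℝ)
  | [], Φ => Φ
  | (true, r) :: L, Φ => opD r (evp L Φ)
  | (false, b) :: L, Φ => opI G b (evp L Φ)

def ev (L : List (Bool × ℝ)) : Finset V → ℝ := evp G L phi0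

def mass (L : List (Bool × ℝ)) : ℝ := (L.map Prod.snd).sum

def en : List (Bool × ℝ) → ℝ
  | [] => 0
  | (true, r) :: L => r ^ 2 + 2 * r * mass L + en L
  | (false, _) :: L => en L

def NN (L : List (Bool × ℝ)) : Prop := ∀ p ∈ L, 0 ≤ p.2

lemma mass_nil : mass [] = 0 := rfl
lemma mass_cons (p : Bool × ℝ) (L : List (Bool × ℝ)) : mass (p :: L) = p.2 + mass L := by
  simp [mass]
lemma en_nil : en [] = 0 := rfl
lemma en_t (r : ℝ) (L : List (Bool × ℝ)) : en ((true, r) :: L) = r ^ 2 + 2 * r * mass L + en L := rfl
lemma en_f (r : ℝ) (L : List (Bool × ℝ)) : en ((false, r) :: L) = en L := rfl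
lemma evp_nil (Φ : Finset V → ℝ) : evp G [] Φ = Φ := rfl
lemma evp_t (r : ℝ) (L : List (Bool × ℝ)) (Φ : Finset V → ℝ) :
    evp G ((true, r) :: L) Φ = opD r (evp G L Φ) := rfl
lemma evp_f (r : ℝ) (L : List (Bool × ℝ)) (Φ : Finset V → ℝ) :
    evp G ((false, r) :: L) Φ = opI G r (evp G L Φ) := rfl
lemma ev_nil : ev G [] = phi0 := rfl
lemma ev_t (r : ℝ) (L : List (Bool × ℝ)) : ev G ((true, r) :: L) = opD r (ev G L) := rfl
lemma ev_f (r : ℝ) (L : List (Bool × ℝ)) : ev G ((false, r) :: L) = opI G r (ev G L) := rfl

lemma NN_cons {p : Bool × ℝ} {L : List (Bool × ℝ)} : NN (p :: L) ↔ 0 ≤ p.2 ∧ NN L := by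
  simp [NN]
lemma NN_nil : NN [] := by simp [NN]

lemma phi0_nonneg (U : Finset V) : 0 ≤ phi0 U := by
  unfold phi0; split_ifs <;> norm_num

lemma ev_nonneg {L : List (Bool × ℝ)} (hL : NN L) (U : Finset V) : 0 ≤ ev G L U := by
  induction L generalizing U with
  | nil => exact phi0_nonneg U
  | cons p L ih =>
    rw [NN_cons] at hL
    obtain ⟨t, r⟩ := p
    cases t
    · rw [ev_f]; exact opI_nonneg G hL.1 (ih hL.2) U
    · rw [ev_t]; exact opD_nonneg hL.1 (ih hL.2) U

/-- The target: a `T`-shape with the same mass and energy which is at least as good. -/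
def Good (L : List (Bool × ℝ)) (U : Finset V) : Prop :=
  ∃ r b y : ℝ, 0 ≤ r ∧ 0 ≤ b ∧ 0 ≤ y ∧ mass [(true, r), (false, b), (true, y)] = mass L ∧
    en [(true, r), (false, b), (true, y)] = en L ∧
    ev G L U ≤ ev G [(true, r), (false, b), (true, y)] U

lemma Good.mono {L L' : List (Bool × ℝ)} {U : Finset V} (h : Good G L' U)
    (h1 : mass L' = mass L) (h2 : en L' = en L) (h3 : ev G L U ≤ ev G L' U) : Good G L U := by
  obtain ⟨r, b, y, hr, hb, hy, m, e, v⟩ := h
  exact ⟨r, b, y, hr, hb, hy, m.trans h1, e.trans h2, h3.trans v⟩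

/-- candidates for move (a) -/
lemma move_a_data {b' r b r' : ℝ} (hb' : 0 < b') (hr : 0 < r) (hb : 0 < b) (hr' : 0 < r') :
    0 < r * b / (b + b') ∧ r * b / (b + b') ≤ r ∧ r ≤ r + r' ∧ 0 ≤ (b + b') - r * b / (r + r') := by
  refine ⟨by positivity, ?_, by linarith, ?_⟩
  · rw [div_le_iff₀ (by positivity)]
    nlinarith [mul_pos hr hb']
  · have : r * b / (r + r') ≤ b := by
      rw [div_le_iff₀ (by positivity)]
      nlinarith [mul_pos hb hr']
    linarith

/-- move (a), no outer block -/
lemma move_a {b' r b r' : ℝ} (hb' : 0 < b') (hr : 0 < r) (hb : 0 < b) (hr' : 0 < r')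
    {L : List (Bool × ℝ)} (hL : NN L) (F : (Finset V → ℝ) → ℝ)
    (hF : ∀ (S : Set ℝ), Convex ℝ S → ∀ Φ : ℝ → Finset V → ℝ, (∀ U, ConvexOn ℝ S (fun s => Φ s U)) →
      ConvexOn ℝ S (fun s => F (Φ s))) :
    F (ev G ((false, b') :: (true, r) :: (false, b) :: (true, r') :: L)) ≤
      F (ev G ((true, r * b / (b + b')) :: (false, b + b') :: (true, r + r' - r * b / (b + b')) :: L)) ∨
    F (ev G ((false, b') :: (true, r) :: (false, b) :: (true, r') :: L)) ≤
      F (ev G ((false, b + b' - r * b / (r + r')) :: (true, r + r') :: (false, r * b / (r + r')) :: L)) := by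
  obtain ⟨h1, h2, h3, h4⟩ := move_a_data hb' hr hb hr'
  have hc := hF (Set.Ioi 0) (convex_Ioi 0)
    (fun x => opI G ((b + b') - (r * b) / x) (opD x (opI G ((r * b) / x) (opD ((r + r') - x) (ev G L)))))
    (fun U => conv_four G (by positivity) (by positivity) (by positivity) (ev_nonneg G hL) U)
  have hle := hc.le_max_of_mem_Icc (x := r * b / (b + b')) (y := r + r') (z := r)
    h1 (show (0:ℝ) < r + r' by positivity) ⟨h2, h3⟩
  have e0 : (b + b') - (r * b) / r = b' := by field_simp; ring
  have e1 : (r * b) / r = b := by field_simp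
  have e2 : (r + r') - r = r' := by ring
  have e3 : (b + b') - (r * b) / (r * b / (b + b')) = 0 := by field_simp; ring
  have e4 : (r * b) / (r * b / (b + b')) = b + b' := by field_simp
  have e5 : (r + r') - (r + r') = 0 := by ring
  rw [e0, e1, e2, e3, e4, e5, opI_zero, opD_zero] at hle
  rcases le_max_iff.1 hle with h | h
  · left; simpa only [ev_t, ev_f] using h
  · right; simpa only [ev_t, ev_f] using h

/-- move (b) -/
lemma move_b {b' r b : ℝ} (hb' : 0 < b') (hr : 0 < r) (hb : 0 < b) (F : (Finset V → ℝ) → ℝ)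
    (hF : ∀ (S : Set ℝ), Convex ℝ S → ∀ Φ : ℝ → Finset V → ℝ, (∀ U, ConvexOn ℝ S (fun s => Φ s U)) →
      ConvexOn ℝ S (fun s => F (Φ s))) :
    ∃ k c : ℝ, k = r ^ 2 + 2 * r * b ∧ c = b' + b + r ∧ 0 < k ∧ Real.sqrt k ≤ c ∧
    (F (ev G [(false, b'), (true, r), (false, b)]) ≤ F (ev G [(false, c - Real.sqrt k), (true, Real.sqrt k)]) ∨
     F (ev G [(false, b'), (true, r), (false, b)]) ≤ F (ev G [(true, rr k c), (false, bb k c)])) := by
  obtain ⟨k, hk⟩ : ∃ k, k = r ^ 2 + 2 * r * b := ⟨_, rfl⟩
  obtain ⟨c, hc⟩ : ∃ c, c = b' + b + r := ⟨_, rfl⟩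
  have hkpos : 0 < k := by rw [hk]; positivity
  have hsx : Real.sqrt k ≤ r + b := by
    rw [Real.sqrt_le_left (by positivity), hk]; nlinarith [mul_pos hr hb, sq_nonneg b]
  have hxc : r + b ≤ c := by rw [hc]; linarith
  have hcpos : 0 < c := by rw [hc]; positivity
  refine ⟨k, c, hk, hc, hkpos, hsx.trans hxc, ?_⟩
  have hcv := hF (Set.Ici (Real.sqrt k)) (convex_Ici _)
    (fun x => opI G (c - x) (opD (rr k x) (opI G (bb k x) phi0)))
    (fun U => conv_three G hcpos.le hkpos U)
  have hle := hcv.le_max_of_mem_Icc (x := Real.sqrt k) (y := c) (z := r + b)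
    (Set.mem_Ici.2 le_rfl) (hsx.trans hxc) ⟨hsx, hxc⟩
  have e0 : bb k (r + b) = b := by
    unfold bb
    have : (r + b) ^ 2 - k = b ^ 2 := by rw [hk]; ring
    rw [this, Real.sqrt_sq hb.le]
  have e1 : rr k (r + b) = r := by
    have := rr_add_bb k (r + b)
    rw [e0] at this; linarith
  have e2 : c - (r + b) = b' := by rw [hc]; ring
  have e3 : bb k (Real.sqrt k) = 0 := by
    unfold bb
    rw [Real.sq_sqrt hkpos.le]; simp
  have e4 : rr k (Real.sqrt k) = Real.sqrt k := by
    have := rr_add_bb k (Real.sqrt k)
    rw [e3] at this; linarith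
  rw [e0, e1, e2, e3, e4, sub_self, opI_zero, opI_zero] at hle
  rcases le_max_iff.1 hle with h | h
  · left; simpa only [ev_t, ev_f, ev_nil] using h
  · right; simpa only [ev_t, ev_f, ev_nil] using h

/-- removal of the blocks of mass zero -/
noncomputable def filt : List (Bool × ℝ) → List (Bool × ℝ) := fun L => by
  classical exact L.filter (fun p => p.2 ≠ 0)

lemma filt_nil : filt [] = [] := rfl

lemma filt_cons_zero (t : Bool) (L : List (Bool × ℝ)) : filt ((t, 0) :: L) = filt L := by
  simp [filt]

lemma filt_cons_ne (p : Bool × ℝ) (hp : p.2 ≠ 0) (L : List (Bool × ℝ)) :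
    filt (p :: L) = p :: filt L := by
  simp [filt, hp]

lemma filt_props (L : List (Bool × ℝ)) :
    mass (filt L) = mass L ∧ en (filt L) = en L ∧ ev G (filt L) = ev G L := by
  induction L with
  | nil => simp [filt_nil]
  | cons p L ih =>
    obtain ⟨h1, h2, h3⟩ := ih
    obtain ⟨t, r⟩ := p
    by_cases hr : r = 0
    · subst hr
      rw [filt_cons_zero]
      refine ⟨by rw [h1, mass_cons]; simp, ?_, ?_⟩
      · cases t
        · rw [en_f, h2]
        · rw [en_t, h2]; simp
      · cases t
        · rw [ev_f, h3, opI_zero]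
        · rw [ev_t, h3, opD_zero]
    · rw [filt_cons_ne _ hr]
      refine ⟨by rw [mass_cons, mass_cons, h1], ?_, ?_⟩
      · cases t
        · rw [en_f, en_f, h2]
        · rw [en_t, en_t, h2, h1]
      · cases t
        · rw [ev_f, ev_f, h3]
        · rw [ev_t, ev_t, h3]

lemma filt_NN {L : List (Bool × ℝ)} (h : NN L) : NN (filt L) := by
  intro p hp
  classical
  unfold filt at hp
  exact h p (List.mem_of_mem_filter hp)

lemma filt_length {L : List (Bool × ℝ)} (h : ∃ p ∈ L, p.2 = 0) : (filt L).length < L.length := by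
  classical
  obtain ⟨p, hp, hp0⟩ := h
  unfold filt
  rw [List.length_filter_lt_length_iff_exists]
  exact ⟨p, hp, by simp [hp0]⟩

theorem reduce (n : ℕ) : ∀ L : List (Bool × ℝ), L.length ≤ n → NN L → ∀ U, Good G L U := by
  induction n with
  | zero =>
    intro L hL _ U
    have : L = [] := List.length_eq_zero_iff.1 (Nat.le_zero.1 hL)
    subst this
    refine ⟨0, 0, 0, le_rfl, le_rfl, le_rfl, by simp [mass], by simp [en], ?_⟩
    simp only [ev_t, ev_f, opD_zero, opI_zero]
    exact le_rfl
  | succ n ih =>
    intro L hL hN U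
    by_cases hz : ∃ p ∈ L, p.2 = 0
    · have h1 := filt_length hz
      obtain ⟨a1, a2, a3⟩ := filt_props G L
      exact (ih (filt L) (by omega) (filt_NN hN) U).mono G a1 a2 (by rw [a3])
    · push Not at hz
      have hpos : ∀ p ∈ L, 0 < p.2 := fun p hp => lt_of_le_of_ne (hN p hp) (Ne.symm (hz p hp))
      match L, hL, hN, hpos with
      | [], _, _, _ =>
        refine ⟨0, 0, 0, le_rfl, le_rfl, le_rfl, by simp [mass], by simp [en], ?_⟩
        simp only [ev_t, ev_f, opD_zero, opI_zero]
        exact le_rfl
      | [(true, x)], _, hN, _ =>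
        refine ⟨0, 0, x, le_rfl, le_rfl, hN (true, x) (by simp), by simp [mass], by simp [en_t, en_f, en_nil, mass_nil], ?_⟩
        simp only [ev_t, ev_f, opD_zero, opI_zero]
        exact le_rfl
      | [(false, x)], _, hN, _ =>
        refine ⟨0, x, 0, le_rfl, hN (false, x) (by simp), le_rfl, by simp [mass], by simp [en_t, en_f, en_nil, mass_nil], ?_⟩
        simp only [ev_t, ev_f, opD_zero]
        exact le_rfl
      | [(true, x), (false, y)], _, hN, _ =>
        refine ⟨x, y, 0, hN (true, x) (by simp), hN (false, y) (by simp), le_rfl, by simp [mass], by simp [en_t, en_f, en_nil, mass_nil, mass_cons], ?_⟩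
        simp only [ev_t, ev_f, opD_zero]
        exact le_rfl
      | [(false, x), (true, y)], _, hN, _ =>
        refine ⟨0, x, y, le_rfl, hN (false, x) (by simp), hN (true, y) (by simp), by simp [mass], by simp [en_t, en_f, en_nil, mass_nil, mass_cons], ?_⟩
        simp only [ev_t, ev_f, opD_zero]
        exact le_rfl
      | (true, x) :: (true, y) :: L', hL, hN, _ =>
        rw [NN_cons, NN_cons] at hN
        obtain ⟨hx, hy, hN'⟩ := hN
        refine (ih ((true, x + y) :: L') (by simp at hL ⊢; omega) (NN_cons.2 ⟨add_nonneg hx hy, hN'⟩) U).mono G ?_ ?_ ?_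
        · simp only [mass_cons]; ring
        · simp only [en_t, mass_cons]; ring
        · simp only [ev_t, opD_opD]; exact le_rfl
      | (false, x) :: (false, y) :: L', hL, hN, _ =>
        rw [NN_cons, NN_cons] at hN
        obtain ⟨hx, hy, hN'⟩ := hN
        refine (ih ((false, x + y) :: L') (by simp at hL ⊢; omega) (NN_cons.2 ⟨add_nonneg hx hy, hN'⟩) U).mono G ?_ ?_ ?_
        · simp only [mass_cons]; ring
        · simp only [en_f]
        · simp only [ev_f, opI_opI]; exact le_rfl
      | (true, x) :: (false, y) :: (false, z) :: L', hL, hN, _ =>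
        rw [NN_cons, NN_cons, NN_cons] at hN
        obtain ⟨hx, hy, hz, hN'⟩ := hN
        refine (ih ((true, x) :: (false, y + z) :: L') (by simp at hL ⊢; omega)
          (NN_cons.2 ⟨hx, NN_cons.2 ⟨add_nonneg hy hz, hN'⟩⟩) U).mono G ?_ ?_ ?_
        · simp only [mass_cons]; ring
        · simp only [en_t, en_f, mass_cons]; ring
        · simp only [ev_t, ev_f, opI_opI]; exact le_rfl
      | (false, x) :: (true, y) :: (true, z) :: L', hL, hN, _ =>
        rw [NN_cons, NN_cons, NN_cons] at hN
        obtain ⟨hx, hy, hz, hN'⟩ := hN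
        refine (ih ((false, x) :: (true, y + z) :: L') (by simp at hL ⊢; omega)
          (NN_cons.2 ⟨hx, NN_cons.2 ⟨add_nonneg hy hz, hN'⟩⟩) U).mono G ?_ ?_ ?_
        · simp only [mass_cons]; ring
        · simp only [en_t, en_f, mass_cons]; ring
        · simp only [ev_t, ev_f, opD_opD]; exact le_rfl
      | [(true, x), (false, y), (true, z)], _, hN, _ =>
        exact ⟨x, y, z, hN (true, x) (by simp), hN (false, y) (by simp), hN (true, z) (by simp), rfl, rfl, le_rfl⟩
      | [(false, x), (true, y), (false, z)], hL, _, hpos =>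
        have hx := hpos (false, x) (by simp)
        have hy := hpos (true, y) (by simp)
        have hz := hpos (false, z) (by simp)
        obtain ⟨k, c, hk, hc, hkp, hkc, h⟩ := move_b G hx hy hz (fun Φ => Φ U) (fun S _ Φ h => h U)
        simp only at hk hc
        rcases h with h | h
        · refine (ih [(false, c - Real.sqrt k), (true, Real.sqrt k)] (by simp at hL ⊢; omega) ?_ U).mono G ?_ ?_ h
          · rw [NN_cons, NN_cons]; exact ⟨by simpa using hkc, Real.sqrt_nonneg _, NN_nil⟩
          · simp only [mass_cons, mass_nil]; rw [hc]; ring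
          · simp only [en_t, en_f, en_nil, mass_cons, mass_nil]
            rw [Real.sq_sqrt hkp.le, hk]; ring
        · refine (ih [(true, rr k c), (false, bb k c)] (by simp at hL ⊢; omega) ?_ U).mono G ?_ ?_ h
          · rw [NN_cons, NN_cons]; exact ⟨rr_nonneg hkp.le hkc, bb_nonneg _ _, NN_nil⟩
          · simp only [mass_cons, mass_nil]
            have := rr_add_bb k c
            linarith
          · simp only [en_t, en_f, en_nil, mass_cons, mass_nil]
            have := curve hkp.le hkc
            rw [hk] at this ⊢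
            linarith
      | (true, x) :: (false, y) :: (true, z) :: (true, w) :: L', hL, hN, _ =>
        rw [NN_cons, NN_cons, NN_cons, NN_cons] at hN
        obtain ⟨hx, hy, hz, hw, hN'⟩ := hN
        refine (ih ((true, x) :: (false, y) :: (true, z + w) :: L') (by simp at hL ⊢; omega)
          (NN_cons.2 ⟨hx, NN_cons.2 ⟨hy, NN_cons.2 ⟨add_nonneg hz hw, hN'⟩⟩⟩) U).mono G ?_ ?_ ?_
        · simp only [mass_cons]; ring
        · simp only [en_t, en_f, mass_cons]; ring
        · simp only [ev_t, ev_f, opD_opD]; exact le_rfl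
      | (false, x) :: (true, y) :: (false, z) :: (false, w) :: L', hL, hN, _ =>
        rw [NN_cons, NN_cons, NN_cons, NN_cons] at hN
        obtain ⟨hx, hy, hz, hw, hN'⟩ := hN
        refine (ih ((false, x) :: (true, y) :: (false, z + w) :: L') (by simp at hL ⊢; omega)
          (NN_cons.2 ⟨hx, NN_cons.2 ⟨hy, NN_cons.2 ⟨add_nonneg hz hw, hN'⟩⟩⟩) U).mono G ?_ ?_ ?_
        · simp only [mass_cons]; ring
        · simp only [en_t, en_f, mass_cons]; ring
        · simp only [ev_t, ev_f, opI_opI]; exact le_rfl
      | (false, x) :: (true, y) :: (false, z) :: (true, w) :: L', hL, hN, hpos =>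
        have hx := hpos (false, x) (by simp)
        have hy := hpos (true, y) (by simp)
        have hz := hpos (false, z) (by simp)
        have hw := hpos (true, w) (by simp)
        simp only at hx hy hz hw
        rw [NN_cons, NN_cons, NN_cons, NN_cons] at hN
        obtain ⟨-, -, -, -, hN'⟩ := hN
        obtain ⟨d1, d2, d3, d4⟩ := move_a_data hx hy hz hw
        rcases move_a G hx hy hz hw hN' (fun Φ => Φ U) (fun S _ Φ h => h U) with h | h
        · refine (ih _ (by simp at hL ⊢; omega) ?_ U).mono G ?_ ?_ h
          · rw [NN_cons, NN_cons, NN_cons]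
            exact ⟨d1.le, by simp only; linarith, by simp only; linarith, hN'⟩
          · simp only [mass_cons]; ring
          · simp only [en_t, en_f, mass_cons]
            have : y * z / (z + x) * (z + x) = y * z := by field_simp
            nlinarith [this]
        · refine (ih _ (by simp at hL ⊢; omega) ?_ U).mono G ?_ ?_ h
          · rw [NN_cons, NN_cons, NN_cons]
            exact ⟨by simpa using d4, by simp only; linarith, by simp only; positivity, hN'⟩
          · simp only [mass_cons]; ring
          · simp only [en_t, en_f, mass_cons]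
            have : y * z / (y + w) * (y + w) = y * z := by field_simp
            nlinarith [this]
      | [(true, p), (false, x), (true, y), (false, z)], hL, _, hpos =>
        have hp := hpos (true, p) (by simp)
        have hx := hpos (false, x) (by simp)
        have hy := hpos (true, y) (by simp)
        have hz := hpos (false, z) (by simp)
        simp only at hp hx hy hz
        obtain ⟨k, c, hk, hc, hkp, hkc, h⟩ := move_b G hx hy hz (fun Φ => opD p Φ U)
          (fun S hS Φ h => conv_opD hS hp.le Φ h U)
        rcases h with h | h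
        · refine (ih [(true, p), (false, c - Real.sqrt k), (true, Real.sqrt k)] (by simp at hL ⊢; omega) ?_ U).mono G ?_ ?_ h
          · rw [NN_cons, NN_cons, NN_cons]; exact ⟨hp.le, by simpa using hkc, Real.sqrt_nonneg _, NN_nil⟩
          · simp only [mass_cons, mass_nil]; rw [hc]; ring
          · simp only [en_t, en_f, en_nil, mass_cons, mass_nil]
            rw [Real.sq_sqrt hkp.le, hk, hc]; ring
        · refine (ih [(true, p), (true, rr k c), (false, bb k c)] (by simp at hL ⊢; omega) ?_ U).mono G ?_ ?_ h
          · rw [NN_cons, NN_cons, NN_cons]; exact ⟨hp.le, rr_nonneg hkp.le hkc, bb_nonneg _ _, NN_nil⟩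
          · simp only [mass_cons, mass_nil]
            have := rr_add_bb k c
            linarith
          · simp only [en_t, en_f, en_nil, mass_cons, mass_nil]
            have h1 := curve hkp.le hkc
            have h2 := rr_add_bb k c
            have h3 : p * (rr k c + (bb k c + 0)) = p * (x + (y + (z + 0))) := by
              congr 1; linarith
            have h4 : rr k c ^ 2 + 2 * rr k c * bb k c = y ^ 2 + 2 * y * z := by rw [h1, hk]
            linarith
      | (true, p) :: (false, x) :: (true, y) :: (false, z) :: (false, w) :: L', hL, hN, _ =>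
        rw [NN_cons, NN_cons, NN_cons, NN_cons, NN_cons] at hN
        obtain ⟨hp, hx, hy, hz, hw, hN'⟩ := hN
        refine (ih ((true, p) :: (false, x) :: (true, y) :: (false, z + w) :: L') (by simp at hL ⊢; omega)
          (NN_cons.2 ⟨hp, NN_cons.2 ⟨hx, NN_cons.2 ⟨hy, NN_cons.2 ⟨add_nonneg hz hw, hN'⟩⟩⟩⟩) U).mono G ?_ ?_ ?_
        · simp only [mass_cons]; ring
        · simp only [en_t, en_f, mass_cons]; ring
        · simp only [ev_t, ev_f, opI_opI]; exact le_rfl
      | (true, p) :: (false, x) :: (true, y) :: (false, z) :: (true, w) :: L', hL, hN, hpos =>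
        have hp := hpos (true, p) (by simp)
        have hx := hpos (false, x) (by simp)
        have hy := hpos (true, y) (by simp)
        have hz := hpos (false, z) (by simp)
        have hw := hpos (true, w) (by simp)
        simp only at hp hx hy hz hw
        rw [NN_cons, NN_cons, NN_cons, NN_cons, NN_cons] at hN
        obtain ⟨-, -, -, -, -, hN'⟩ := hN
        obtain ⟨d1, d2, d3, d4⟩ := move_a_data hx hy hz hw
        rcases move_a G hx hy hz hw hN' (fun Φ => opD p Φ U)
          (fun S hS Φ h => conv_opD hS hp.le Φ h U) with h | h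
        · refine (ih ((true, p) :: (true, y * z / (z + x)) :: (false, z + x) :: (true, y + w - y * z / (z + x)) :: L')
            (by simp at hL ⊢; omega) ?_ U).mono G ?_ ?_ h
          · rw [NN_cons, NN_cons, NN_cons, NN_cons]
            exact ⟨hp.le, d1.le, by simp only; linarith, by simp only; linarith, hN'⟩
          · simp only [mass_cons]; ring
          · simp only [en_t, en_f, mass_cons]
            have : y * z / (z + x) * (z + x) = y * z := by field_simp
            nlinarith [this]
        · refine (ih ((true, p) :: (false, z + x - y * z / (y + w)) :: (true, y + w) :: (false, y * z / (y + w)) :: L')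
            (by simp at hL ⊢; omega) ?_ U).mono G ?_ ?_ h
          · rw [NN_cons, NN_cons, NN_cons, NN_cons]
            exact ⟨hp.le, by simpa using d4, by simp only; linarith, by simp only; positivity, hN'⟩
          · simp only [mass_cons]; ring
          · simp only [en_t, en_f, mass_cons]
            have : y * z / (y + w) * (y + w) = y * z := by field_simp
            nlinarith [this]

end Pool.Agent.H488R3
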