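import Mathlib
import Pool.Agent.H488R3.Comp
import Pool.Agent.H488R3.Reduce

set_option autoImplicit false

namespace Pool.Agent.H488R3

open Finset
open scoped Classical

variable {V W : Type} [Fintype V] [Fintype W]

noncomputable def hs (G : SimpleGraph V) (H : SimpleGraph W) (w0 : W) (U : Finset V) (X : Finset W) :
    Finset (V → W) :=
  univ.filter (fun φ => (∀ v ∈ U, φ v ∈ X) ∧ (∀ v, v ∉ U → φ v = w0) ∧
    ∀ a ∈ U, ∀ b ∈ U, G.Adj a b → H.Adj (φ a) (φ b))

lemma mem_hs {G : SimpleGraph V} {H : SimpleGraph W} {w0 : W} {U : Finset V} {X : Finset W} {φ : V → W} :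
    φ ∈ hs G H w0 U X ↔ (∀ v ∈ U, φ v ∈ X) ∧ (∀ v, v ∉ U → φ v = w0) ∧
    ∀ a ∈ U, ∀ b ∈ U, G.Adj a b → H.Adj (φ a) (φ b) := by simp [hs]

lemma hs_step (G : SimpleGraph V) (H : SimpleGraph W) (w0 : W) (U : Finset V) (X : Finset W) (x : W)
    (SS : Finset (Finset V)) (hSS : ∀ φ ∈ hs G H w0 U X, U.filter (fun v => φ v = x) ∈ SS) :
    (hs G H w0 U X).card ≤ ∑ S ∈ SS, (hs G H w0 (U \ S) (X.erase x)).card := by
  rw [← card_sigma]
  refine card_le_card_of_injOn (fun φ => ⟨U.filter (fun v => φ v = x),
    fun v => if v ∈ U ∧ φ v ≠ x then φ v else w0⟩) ?_ ?_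
  · intro φ hφ
    rw [mem_coe] at hφ
    rw [mem_coe, mem_sigma]
    refine ⟨hSS φ hφ, ?_⟩
    rw [mem_hs] at hφ ⊢
    obtain ⟨h1, h2, h3⟩ := hφ
    have key : ∀ v, v ∈ U \ U.filter (fun v => φ v = x) → v ∈ U ∧ φ v ≠ x := by
      intro v hv
      simp only [mem_sdiff, mem_filter, not_and] at hv
      exact ⟨hv.1, hv.2 hv.1⟩
    refine ⟨?_, ?_, ?_⟩
    · intro v hv
      have hv' := key v hv
      simp only
      rw [if_pos hv', mem_erase]
      exact ⟨hv'.2, h1 v hv'.1⟩
    · intro v hv
      simp only
      rw [if_neg]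
      rintro ⟨h4, h5⟩
      apply hv
      simp only [mem_sdiff, mem_filter, not_and]
      exact ⟨h4, fun _ => h5⟩
    · intro a ha b hb hab
      have ha' := key a ha
      have hb' := key b hb
      simp only
      rw [if_pos ha', if_pos hb']
      exact h3 a ha'.1 b hb'.1 hab
  · intro φ hφ ψ hψ he
    rw [mem_coe, mem_hs] at hφ hψ
    simp only [Sigma.mk.injEq, heq_eq_eq] at he
    obtain ⟨e1, e2⟩ := he
    funext v
    by_cases hv : v ∈ U
    · by_cases hx : φ v = x
      · have : v ∈ U.filter (fun v => φ v = x) := mem_filter.2 ⟨hv, hx⟩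
        rw [e1] at this
        rw [hx, (mem_filter.1 this).2]
      · have hx' : ψ v ≠ x := by
          intro h
          have : v ∈ U.filter (fun v => ψ v = x) := mem_filter.2 ⟨hv, h⟩
          rw [← e1] at this
          exact hx (mem_filter.1 this).2
        have := congrFun e2 v
        rw [if_pos ⟨hv, hx⟩, if_pos ⟨hv, hx'⟩] at this
        exact this
    · rw [hφ.2.1 v hv, hψ.2.1 v hv]

/-- number of ordered adjacent pairs in `X` -/
noncomputable def eX (H : SimpleGraph W) (X : Finset W) : ℝ :=
  ∑ a ∈ X, ∑ b ∈ X, if H.Adj a b then 1 else 0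

lemma eX_erase (H : SimpleGraph W) (X : Finset W) {x : W} (hx : x ∈ X) :
    eX H X = eX H (X.erase x) + 2 * ∑ b ∈ X.erase x, (if H.Adj x b then (1:ℝ) else 0) := by
  unfold eX
  rw [← add_sum_erase X _ hx, ← add_sum_erase X _ hx]
  have h1 : ∀ a ∈ X.erase x, ∑ b ∈ X, (if H.Adj a b then (1:ℝ) else 0)
      = (if H.Adj a x then 1 else 0) + ∑ b ∈ X.erase x, (if H.Adj a b then (1:ℝ) else 0) := by
    intro a _
    rw [← add_sum_erase X _ hx]
  rw [sum_congr rfl h1, sum_add_distrib]
  have h2 : ∑ a ∈ X.erase x, (if H.Adj a x then (1:ℝ) else 0) = ∑ b ∈ X.erase x, (if H.Adj x b then (1:ℝ) else 0) := by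
    apply sum_congr rfl; intro a _; simp only [H.adj_comm]
  rw [h2]
  simp
  ring

lemma exists_dom_iso {H : SimpleGraph W} (hH : Nested H) {X : Finset W} (hX : X.Nonempty) :
    ∃ x ∈ X, (∀ y ∈ X, y ≠ x → H.Adj x y) ∨ (∀ y ∈ X, ¬ H.Adj x y) := by
  obtain ⟨x, hx, hmax⟩ := exists_max_image X (fun x => (X.filter (fun c => H.Adj x c)).card) hX
  by_cases hd : ∀ y ∈ X, y ≠ x → H.Adj x y
  · exact ⟨x, hx, Or.inl hd⟩
  · push Not at hd
    obtain ⟨y, hy, hyx, hxy⟩ := hd
    refine ⟨y, hy, Or.inr ?_⟩
    intro z hz hyz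
    have hzx : z ≠ x := by
      rintro rfl; exact hxy hyz.symm
    have hxz : x ≠ z := hzx.symm
    have hzy : z ≠ y := by rintro rfl; exact H.loopless.irrefl _ hyz
    -- y is in PP H z x
    have h1 : y ∈ PP H z x := mem_PP.2 ⟨hzy.symm, hyx, hyz.symm, hxy⟩
    have h2 : PP H x z = ∅ := by
      rcases hH x z hxz with h | h
      · exact h
      · rw [h] at h1; simp at h1
    have hlt : (X.filter (fun c => H.Adj x c)).card < (X.filter (fun c => H.Adj z c)).card := by
      -- injection c ↦ if c = z then x else c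
      have hsub : (X.filter (fun c => H.Adj x c)).card ≤ ((X.filter (fun c => H.Adj z c)).erase y).card := by
        refine card_le_card_of_injOn (fun c => if c = z then x else c) ?_ ?_
        · intro c hc
          simp only [coe_filter, Set.mem_ofPred_eq] at hc
          simp only [coe_erase, coe_filter, Set.mem_sdiff, Set.mem_ofPred_eq, Set.mem_singleton_iff]
          by_cases hcz : c = z
          · subst hcz
            rw [if_pos rfl]
            exact ⟨⟨hx, hc.2.symm⟩, hyx.symm⟩
          · rw [if_neg hcz]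
            refine ⟨⟨hc.1, ?_⟩, ?_⟩
            · by_contra hzc
              have : c ∈ PP H x z := by
                rw [mem_PP]
                refine ⟨?_, hcz, hc.2, hzc⟩
                rintro rfl; exact H.loopless.irrefl _ hc.2
              rw [h2] at this
              simp at this
            · rintro rfl; exact hxy hc.2
        · intro c hc d hd he
          simp only [coe_filter, Set.mem_ofPred_eq] at hc hd
          simp only at he
          have hcx : c ≠ x := by rintro rfl; exact H.loopless.irrefl _ hc.2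
          have hdx : d ≠ x := by rintro rfl; exact H.loopless.irrefl _ hd.2
          split_ifs at he with g1 g2 g2
          · rw [g1, g2]
          · exact absurd he.symm hdx
          · exact absurd he hcx
          · exact he
      have hmem : y ∈ X.filter (fun c => H.Adj z c) := mem_filter.2 ⟨hy, hyz.symm⟩
      exact lt_of_le_of_lt hsub (card_erase_lt_of_mem hmem)
    have := hmax z hz
    omega

theorem exists_list (G : SimpleGraph V) {H : SimpleGraph W} (hH : Nested H) (w0 : W) (n : ℕ) :
    ∀ X : Finset W, X.card = n →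
    ∃ L : List (Bool × ℝ), NN L ∧ mass L = X.card ∧ eX H X ≤ en L ∧ en L ≤ eX H X + X.card ∧
      ∀ U : Finset V, ((hs G H w0 U X).card : ℝ) ≤ ev G L U := by
  induction n with
  | zero =>
    intro X hX
    have hX0 : X = ∅ := card_eq_zero.1 hX
    subst hX0
    refine ⟨[], NN_nil, by simp [mass_nil], by simp [eX, en_nil], by simp [eX, en_nil], ?_⟩
    intro U
    rw [ev_nil]
    unfold phi0
    split_ifs with h
    · subst h
      have : (hs G H w0 ∅ ∅).card ≤ ({fun _ => w0} : Finset (V → W)).card := by
        apply card_le_card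
        intro φ hφ
        rw [mem_hs] at hφ
        rw [mem_singleton]
        funext v
        exact hφ.2.1 v (by simp)
      rw [card_singleton] at this
      exact_mod_cast this
    · have : hs G H w0 U ∅ = ∅ := by
        rw [eq_empty_iff_forall_notMem]
        intro φ hφ
        rw [mem_hs] at hφ
        obtain ⟨v, hv⟩ := nonempty_iff_ne_empty.2 h
        have := hφ.1 v hv
        simp at this
      rw [this]; simp
  | succ n ih =>
    intro X hX
    have hXne : X.Nonempty := by rw [← card_pos]; omega
    obtain ⟨x, hx, hcase⟩ := exists_dom_iso hH hXne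
    obtain ⟨L, hN, hm, he1, he2, hU⟩ := ih (X.erase x) (by rw [card_erase_of_mem hx]; omega)
    have hc : ((X.erase x).card : ℝ) = X.card - 1 := by
      rw [card_erase_of_mem hx, Nat.cast_sub (by omega)]; simp
    have hErase := eX_erase H X hx
    rcases hcase with hdom | hiso
    · -- dominating
      have hsum : ∑ b ∈ X.erase x, (if H.Adj x b then (1:ℝ) else 0) = X.card - 1 := by
        rw [sum_congr rfl (g := fun _ => (1:ℝ)), sum_const, nsmul_eq_mul, mul_one, hc]
        intro b hb
        rw [mem_erase] at hb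
        rw [if_pos (hdom b hb.2 hb.1)]
      rw [hsum] at hErase
      refine ⟨(true, 1) :: L, NN_cons.2 ⟨by norm_num, hN⟩, ?_, ?_, ?_, ?_⟩
      · rw [mass_cons, hm, hc]; simp
      · rw [en_t, hm, hc]; linarith
      · rw [en_t, hm, hc]; linarith
      · intro U
        have h1 := hs_step G H w0 U X x U.powerset (fun φ _ => by rw [mem_powerset]; exact filter_subset _ _)
        rw [ev_t]
        unfold opD
        calc ((hs G H w0 U X).card : ℝ) ≤ ((∑ S ∈ U.powerset, (hs G H w0 (U \ S) (X.erase x)).card : ℕ) : ℝ) := by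
              exact_mod_cast h1
          _ = ∑ S ∈ U.powerset, ((hs G H w0 (U \ S) (X.erase x)).card : ℝ) := by push_cast; rfl
          _ ≤ ∑ S ∈ U.powerset, 1 ^ S.card * ev G L (U \ S) := by
              apply sum_le_sum
              intro S _
              rw [one_pow, one_mul]
              exact hU _
    · have hsum : ∑ b ∈ X.erase x, (if H.Adj x b then (1:ℝ) else 0) = 0 := by
        apply sum_eq_zero
        intro b hb
        rw [mem_erase] at hb
        rw [if_neg (hiso b hb.2)]
      rw [hsum] at hErase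
      refine ⟨(false, 1) :: L, NN_cons.2 ⟨by norm_num, hN⟩, ?_, ?_, ?_, ?_⟩
      · rw [mass_cons, hm, hc]; simp
      · rw [en_f]; linarith
      · rw [en_f]; linarith
      · intro U
        have h1 := hs_step G H w0 U X x (iso G U).powerset (fun φ hφ => by
          rw [mem_powerset]
          intro v hv
          rw [mem_filter] at hv
          rw [mem_hs] at hφ
          simp only [iso, mem_filter]
          refine ⟨hv.1, ?_⟩
          intro w hw hvw
          have h4 := hφ.2.2 v hv.1 w hw hvw
          rw [hv.2] at h4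
          exact hiso _ (hφ.1 w hw) h4)
        rw [ev_f]
        unfold opI
        calc ((hs G H w0 U X).card : ℝ) ≤ ((∑ S ∈ (iso G U).powerset, (hs G H w0 (U \ S) (X.erase x)).card : ℕ) : ℝ) := by
              exact_mod_cast h1
          _ = ∑ S ∈ (iso G U).powerset, ((hs G H w0 (U \ S) (X.erase x)).card : ℝ) := by push_cast; rfl
          _ ≤ ∑ S ∈ (iso G U).powerset, 1 ^ S.card * ev G L (U \ S) := by
              apply sum_le_sum
              intro S _
              rw [one_pow, one_mul]
              exact hU _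

lemma eX_univ (H : SimpleGraph W) : eX H univ = (EE H : ℝ) := by
  unfold eX EE dg
  push_cast
  rfl

/-- summary for nested graphs -/
theorem nested_list (G : SimpleGraph V) {H : SimpleGraph W} (hH : Nested H) [Nonempty W] :
    ∃ L : List (Bool × ℝ), NN L ∧ mass L = Fintype.card W ∧ (EE H : ℝ) ≤ en L ∧
      en L ≤ EE H + Fintype.card W ∧ ((HM G H).card : ℝ) ≤ ev G L univ := by
  obtain ⟨w0⟩ := (inferInstance : Nonempty W)
  obtain ⟨L, h1, h2, h3, h4, h5⟩ := exists_list G hH w0 _ univ rfl
  rw [eX_univ] at h3 h4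
  refine ⟨L, h1, by rw [h2, card_univ], h3, by rw [card_univ] at h4; exact h4, ?_⟩
  have := h5 univ
  have he : hs G H w0 univ univ = HM G H := by
    ext φ
    rw [mem_hs, mem_HM]
    simp
  rw [he] at this
  exact this

end Pool.Agent.H488R3
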