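import Mathlib
import Pool.Agent.H488R3.Thresh

set_option autoImplicit false

namespace Pool.Agent.H488R3

open Finset
open scoped Classical

/-- the three vertex classes of a `T`-graph -/
inductive Cls : Type
  | Y | R | B
  deriving DecidableEq, Fintype

/-- adjacency of classes: everything except `B-B`, `Y-B`, `B-Y` -/
def Cls.ok : Cls → Cls → Prop
  | .B, .B => False
  | .Y, .B => False
  | .B, .Y => False
  | _, _ => True

lemma Cls.ok_symm {a b : Cls} (h : Cls.ok a b) : Cls.ok b a := by
  cases a <;> cases b <;> simp [Cls.ok] at h ⊢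

variable {V : Type} [Fintype V]

/-- the homomorphism density of `G` in the weighted class graph -/
noncomputable def tval (G : SimpleGraph V) (w : Cls → ℝ) : ℝ :=
  ∑ c : V → Cls, if (∀ a b, G.Adj a b → Cls.ok (c a) (c b)) then ∏ v, w (c v) else 0

def wts (r b y : ℝ) : Cls → ℝ
  | .R => r
  | .B => b
  | .Y => y

lemma opD_phi0 (y : ℝ) (U : Finset V) : opD y phi0 U = y ^ U.card := by
  unfold opD phi0
  rw [sum_eq_single U]
  · simp
  · intro S hS hne
    rw [mem_powerset] at hS
    have : U \ S ≠ ∅ := by
      intro h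
      rw [sdiff_eq_empty_iff_subset] at h
      exact hne (Subset.antisymm hS h)
    simp [this]
  · intro h; simp at h

theorem tshape (G : SimpleGraph V) (r b y : ℝ) :
    ev G [(true, r), (false, b), (true, y)] univ = tval G (wts r b y) := by
  rw [ev_t, ev_f, ev_t, ev_nil]
  unfold opD opI
  have h0 : ∀ U : Finset V, opD y phi0 U = y ^ U.card := opD_phi0 y
  unfold opD at h0
  simp_rw [h0, mul_sum]
  unfold tval
  rw [← sum_filter, sum_sigma']
  refine sum_bij' (fun p _ => fun v => if v ∈ p.1 then Cls.R else if v ∈ p.2 then Cls.B else Cls.Y)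
    (fun c _ => ⟨univ.filter (fun v => c v = Cls.R), univ.filter (fun v => c v = Cls.B)⟩) ?_ ?_ ?_ ?_ ?_
  · rintro ⟨S, T⟩ h
    simp only [mem_sigma, mem_powerset] at h
    obtain ⟨-, h2⟩ := h
    simp only [mem_filter, mem_univ, true_and]
    have hT : ∀ v ∈ T, v ∉ S ∧ ∀ w, w ∉ S → ¬ G.Adj v w := by
      intro v hv
      have := h2 hv
      simp only [iso, mem_filter, mem_sdiff, mem_univ, true_and] at this
      exact this
    intro a c hac
    by_cases ha : a ∈ S
    · rw [if_pos ha]
      by_cases hc : c ∈ S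
      · rw [if_pos hc]; trivial
      · rw [if_neg hc]; split_ifs <;> trivial
    · rw [if_neg ha]
      by_cases hc : c ∈ S
      · rw [if_pos hc]; split_ifs <;> trivial
      · rw [if_neg hc]
        have hcT : c ∉ T := fun h => (hT c h).2 a ha hac.symm
        have haT : a ∉ T := fun h => (hT a h).2 c hc hac
        rw [if_neg hcT, if_neg haT]; trivial
  · intro c hc
    simp only [mem_filter, mem_univ, true_and] at hc
    simp only [mem_sigma, mem_powerset]
    refine ⟨subset_univ _, ?_⟩
    intro v hv
    simp only [mem_filter, mem_univ, true_and] at hv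
    simp only [iso, mem_filter, mem_sdiff, mem_univ, true_and]
    refine ⟨by rw [hv]; decide, ?_⟩
    intro w hw hvw
    have := hc v w hvw
    rw [hv] at this
    cases hcw : c w
    · rw [hcw] at this; exact this
    · exact hw hcw
    · rw [hcw] at this; exact this
  · rintro ⟨S, T⟩ h
    simp only [mem_sigma, mem_powerset] at h
    obtain ⟨-, h2⟩ := h
    have hd : ∀ v ∈ T, v ∉ S := by
      intro v hv
      have := h2 hv
      simp only [iso, mem_filter, mem_sdiff, mem_univ, true_and] at this
      exact this.1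
    have e1 : univ.filter (fun v => (if v ∈ S then Cls.R else if v ∈ T then Cls.B else Cls.Y) = Cls.R) = S := by
      ext v
      simp only [mem_filter, mem_univ, true_and]
      split_ifs <;> simp_all
    have e2 : univ.filter (fun v => (if v ∈ S then Cls.R else if v ∈ T then Cls.B else Cls.Y) = Cls.B) = T := by
      ext v
      simp only [mem_filter, mem_univ, true_and]
      by_cases hv : v ∈ T
      · have := hd v hv
        simp [hv, this]
      · by_cases hS : v ∈ S <;> simp [hv, hS]
    simp only [e1, e2]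
  · intro c hc
    funext v
    simp only [mem_filter, mem_univ, true_and]
    cases hcv : c v <;> simp
  · rintro ⟨S, T⟩ h
    simp only [mem_sigma, mem_powerset] at h
    obtain ⟨-, h2⟩ := h
    have hTS : T ⊆ univ \ S := h2.trans (iso_subset G _)
    have hd : ∀ v ∈ T, v ∉ S := fun v hv => (mem_sdiff.1 (hTS hv)).2
    simp only
    rw [← prod_sdiff (subset_univ S), ← prod_sdiff hTS]
    have p1 : ∏ v ∈ S, wts r b y (if v ∈ S then Cls.R else if v ∈ T then Cls.B else Cls.Y) = r ^ S.card := by
      rw [prod_congr rfl (g := fun _ => r), prod_const]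
      intro v hv; rw [if_pos hv]; rfl
    have p2 : ∏ v ∈ T, wts r b y (if v ∈ S then Cls.R else if v ∈ T then Cls.B else Cls.Y) = b ^ T.card := by
      rw [prod_congr rfl (g := fun _ => b), prod_const]
      intro v hv; rw [if_neg (hd v hv), if_pos hv]; rfl
    have p3 : ∏ v ∈ (univ \ S) \ T, wts r b y (if v ∈ S then Cls.R else if v ∈ T then Cls.B else Cls.Y)
        = y ^ ((univ \ S) \ T).card := by
      rw [prod_congr rfl (g := fun _ => y), prod_const]
      intro v hv
      simp only [mem_sdiff, mem_univ, true_and] at hv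
      rw [if_neg hv.1, if_neg hv.2]; rfl
    rw [p1, p2, p3]
    ring

lemma tval_smul (G : SimpleGraph V) (w : Cls → ℝ) (n : ℝ) :
    tval G (fun c => n * w c) = n ^ Fintype.card V * tval G w := by
  unfold tval
  rw [mul_sum]
  apply sum_congr rfl
  intro c _
  split_ifs
  · rw [prod_mul_distrib, prod_const, card_univ]
  · simp

lemma tval_continuous (G : SimpleGraph V) : Continuous (tval G) := by
  unfold tval
  apply continuous_finsetSum
  intro c _
  split_ifs
  · exact continuous_finsetProd _ (fun v _ => continuous_apply _)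
  · exact continuous_const

/-- energy -/
def egy (w : Cls → ℝ) : ℝ := w .R ^ 2 + 2 * w .R * (w .B + w .Y) + w .Y ^ 2

/-- upper bound for arbitrary graphs -/
theorem upper {W : Type} [Fintype W] [Nonempty W] (G : SimpleGraph V) (H : SimpleGraph W) :
    ∃ w : Cls → ℝ, (∀ c, 0 ≤ w c) ∧ w .R + w .B + w .Y = 1 ∧
      (EE H : ℝ) / (Fintype.card W : ℝ) ^ 2 ≤ egy w ∧
      egy w ≤ (EE H : ℝ) / (Fintype.card W : ℝ) ^ 2 + 1 / Fintype.card W ∧
      ((HM G H).card : ℝ) / (Fintype.card W : ℝ) ^ Fintype.card V
        ≤ tval G w + ((Fintype.card V : ℝ) ^ 4 + 1) / (2 * Fintype.card W) := by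
  obtain ⟨H', hN, hE, hH⟩ := exists_nested G H
  obtain ⟨L, h1, h2, h3, h4, h5⟩ := nested_list G hN
  obtain ⟨r, b, y, hr, hb, hy, hm, he, hv⟩ := reduce G L.length L le_rfl h1 univ
  have hn : (0:ℝ) < Fintype.card W := by exact_mod_cast Fintype.card_pos
  set n : ℝ := (Fintype.card W : ℝ) with hnn
  rw [h2] at hm
  simp only [mass_cons, mass_nil] at hm
  rw [hE] at h3 h4
  rw [← he] at h3 h4
  simp only [en_t, en_f, en_nil, mass_cons, mass_nil] at h3 h4
  have hegy : n ^ 2 * egy (wts (r / n) (b / n) (y / n)) = r ^ 2 + 2 * r * (b + y) + y ^ 2 := by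
    unfold egy wts
    field_simp
  refine ⟨wts (r / n) (b / n) (y / n), ?_, ?_, ?_, ?_, ?_⟩
  · intro c
    cases c <;> simp only [wts] <;> positivity
  · simp only [wts]
    field_simp
    linarith
  · rw [div_le_iff₀ (by positivity)]
    nlinarith
  · rw [← sub_le_iff_le_add, ← sub_nonneg]
    have : (EE H : ℝ) / n ^ 2 - (egy (wts (r / n) (b / n) (y / n)) - 1 / n)
        = (EE H + n - n ^ 2 * egy (wts (r / n) (b / n) (y / n))) / n ^ 2 := by
      field_simp
      ring
    rw [this]
    apply div_nonneg _ (by positivity)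
    rw [hegy]
    linarith
  · have ht : tval G (wts r b y) = n ^ Fintype.card V * tval G (wts (r / n) (b / n) (y / n)) := by
      rw [← tval_smul]
      congr 1
      funext c
      cases c <;> simp only [wts] <;> field_simp
    rw [tshape, ht] at hv
    have hH' : 2 * n ^ 4 * ((HM G H).card : ℝ) ≤ 2 * n ^ 4 * ((HM G H').card : ℝ)
        + ((Fintype.card V : ℝ) ^ 4 + 1) * n ^ (Fintype.card V) * n ^ 3 := by
      rw [hnn]; exact_mod_cast hH
    have h6 : ((HM G H').card : ℝ) ≤ n ^ Fintype.card V * tval G (wts (r / n) (b / n) (y / n)) := h5.trans hv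
    have h7 : 2 * n ^ 4 * ((HM G H).card : ℝ) ≤ 2 * n ^ 4 * (n ^ Fintype.card V * tval G (wts (r / n) (b / n) (y / n)))
        + ((Fintype.card V : ℝ) ^ 4 + 1) * n ^ (Fintype.card V) * n ^ 3 := by
      have := mul_le_mul_of_nonneg_left h6 (show (0:ℝ) ≤ 2 * n ^ 4 by positivity)
      linarith
    rw [div_le_iff₀ (by positivity)]
    have h8 : 2 * n ^ 4 * ((tval G (wts (r / n) (b / n) (y / n)) + ((Fintype.card V : ℝ) ^ 4 + 1) / (2 * n)) * n ^ Fintype.card V)
        = 2 * n ^ 4 * (n ^ Fintype.card V * tval G (wts (r / n) (b / n) (y / n)))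
        + ((Fintype.card V : ℝ) ^ 4 + 1) * n ^ (Fintype.card V) * n ^ 3 := by
      field_simp
    rw [← h8] at h7
    exact le_of_mul_le_mul_left h7 (by positivity)

end Pool.Agent.H488R3
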