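import Mathlib
import Pool.Agent.H488R3.Tshape

set_option autoImplicit false

namespace Pool.Agent.H488R3

open Finset Filter Topology
open scoped Classical

variable {V : Type} [Fintype V]

/-- weights summing to one -/
def KK : Set (Cls → ℝ) := {w | (∀ c, 0 ≤ w c) ∧ w .R + w .B + w .Y = 1}

lemma KK_compact : IsCompact KK := by
  have h1 : IsCompact (Set.pi Set.univ (fun _ : Cls => Set.Icc (0:ℝ) 1)) :=
    isCompact_univ_pi (fun _ => isCompact_Icc)
  refine h1.of_isClosed_subset ?_ ?_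
  · have : KK = (⋂ c, {w : Cls → ℝ | 0 ≤ w c}) ∩ {w | w .R + w .B + w .Y = 1} := by
      ext w; simp [KK]
    rw [this]
    apply IsClosed.inter
    · exact isClosed_iInter (fun c => isClosed_le continuous_const (continuous_apply c))
    · exact isClosed_eq (by fun_prop) continuous_const
  · rintro w ⟨h1, h2⟩ c _
    refine ⟨h1 c, ?_⟩
    have hR := h1 .R
    have hB := h1 .B
    have hY := h1 .Y
    cases c <;> linarith

/-- closed region below the `T`-curve -/
def CC (G : SimpleGraph V) : Set (ℝ × ℝ) := {p | ∃ w ∈ KK, egy w = p.1 ∧ p.2 ≤ tval G w}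

lemma egy_continuous : Continuous egy := by unfold egy; fun_prop

lemma CC_closed (G : SimpleGraph V) : IsClosed (CC G) := by
  haveI : CompactSpace KK := isCompact_iff_compactSpace.1 KK_compact
  have h1 : IsClosed {x : KK × (ℝ × ℝ) | egy (x.1 : Cls → ℝ) = x.2.1 ∧ x.2.2 ≤ tval G (x.1 : Cls → ℝ)} := by
    apply IsClosed.and
    · exact isClosed_eq (egy_continuous.comp (continuous_subtype_val.comp continuous_fst)) (by fun_prop)
    · exact isClosed_le (by fun_prop) ((tval_continuous G).comp (continuous_subtype_val.comp continuous_fst))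
  have h2 := (isClosedMap_snd_of_compactSpace (X := KK) (Y := ℝ × ℝ)) _ h1
  convert h2 using 1
  ext p
  simp only [CC, Set.mem_ofPred_eq, Set.mem_image]
  constructor
  · rintro ⟨w, hw, h3, h4⟩
    exact ⟨(⟨w, hw⟩, p), ⟨h3, h4⟩, rfl⟩
  · rintro ⟨⟨w, p'⟩, ⟨h3, h4⟩, rfl⟩
    exact ⟨w, w.2, h3, h4⟩

/-- blow-up -/
def blow {W : Type} (H : SimpleGraph W) (m : ℕ) : SimpleGraph (W × Fin m) :=
  H.comap Prod.fst

lemma EE_blow {W : Type} [Fintype W] (H : SimpleGraph W) (m : ℕ) :
    EE (blow H m) = (m : ℤ) ^ 2 * EE H := by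
  have h1 : ∀ x : W × Fin m, dg (blow H m) x = m * dg H x.1 := by
    intro x
    unfold dg
    rw [Fintype.sum_prod_type, mul_sum]
    apply sum_congr rfl
    intro w _
    have : ∀ j : Fin m, (if (blow H m).Adj x (w, j) then (1:ℤ) else 0) = if H.Adj x.1 w then 1 else 0 := by
      intro j
      simp only [blow, SimpleGraph.comap_adj]
    rw [sum_congr rfl (fun j _ => this j), sum_const, card_univ, Fintype.card_fin, nsmul_eq_mul]
  unfold EE
  rw [sum_congr rfl (fun x _ => h1 x), Fintype.sum_prod_type, mul_sum]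
  apply sum_congr rfl
  intro w _
  have : ∀ j : Fin m, (m : ℤ) * dg H ((w, j) : W × Fin m).1 = m * dg H w := fun j => rfl
  rw [sum_congr rfl (fun j _ => this j), sum_const, card_univ, Fintype.card_fin, nsmul_eq_mul]
  ring

lemma HM_blow {W : Type} [Fintype W] (G : SimpleGraph V) (H : SimpleGraph W) (m : ℕ) :
    (HM G (blow H m)).card = (HM G H).card * m ^ Fintype.card V := by
  have h1 : (HM G H).card * m ^ Fintype.card V = (HM G H ×ˢ (univ : Finset (V → Fin m))).card := by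
    rw [card_product, card_univ, Fintype.card_fun, Fintype.card_fin]
  rw [h1]
  refine card_bij' (fun φ _ => (fun v => (φ v).1, fun v => (φ v).2)) (fun p _ => fun v => (p.1 v, p.2 v)) ?_ ?_ ?_ ?_
  · intro φ hφ
    rw [mem_HM] at hφ
    simp only [mem_product, mem_univ, and_true, mem_HM]
    intro a b hab
    exact hφ a b hab
  · rintro ⟨f, g⟩ hp
    simp only [mem_product, mem_univ, and_true, mem_HM] at hp
    rw [mem_HM]
    intro a b hab
    exact hp a b hab
  · intro φ _; rfl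
  · rintro ⟨f, g⟩ _; rfl

theorem mem_CC {W : Type} [Fintype W] [Nonempty W] (G : SimpleGraph V) (H : SimpleGraph W) :
    ((EE H : ℝ) / (Fintype.card W : ℝ) ^ 2, ((HM G H).card : ℝ) / (Fintype.card W : ℝ) ^ Fintype.card V) ∈ CC G := by
  have hn : (0:ℝ) < Fintype.card W := by exact_mod_cast Fintype.card_pos
  set n : ℝ := (Fintype.card W : ℝ) with hnn
  set A : ℝ := (EE H : ℝ) / n ^ 2 with hA
  set t : ℝ := ((HM G H).card : ℝ) / n ^ Fintype.card V with ht
  set K : ℝ := (Fintype.card V : ℝ) ^ 4 + 1 with hK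
  have key : ∀ m : ℕ, ∃ w : Cls → ℝ, w ∈ KK ∧ A ≤ egy w ∧ egy w ≤ A + 1 / (n * (m + 1)) ∧
      t - K / (2 * (n * (m + 1))) ≤ tval G w := by
    intro m
    haveI : Nonempty (Fin (m + 1)) := ⟨0⟩
    obtain ⟨w, h1, h2, h3, h4, h5⟩ := upper G (blow H (m + 1))
    have hm : (0:ℝ) < (m:ℝ) + 1 := by positivity
    have hcard : ((Fintype.card (W × Fin (m + 1)) : ℕ) : ℝ) = n * ((m:ℝ) + 1) := by
      rw [Fintype.card_prod, Fintype.card_fin]; push_cast; rw [← hnn]
    rw [hcard, EE_blow] at h3 h4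
    rw [hcard, HM_blow] at h5
    have e1 : ((((m + 1 : ℕ) : ℤ) ^ 2 * EE H : ℤ) : ℝ) / (n * ((m:ℝ) + 1)) ^ 2 = A := by
      rw [hA]; push_cast; field_simp
    have e2 : (((HM G H).card * (m + 1) ^ Fintype.card V : ℕ) : ℝ) / (n * ((m:ℝ) + 1)) ^ Fintype.card V = t := by
      rw [ht]; push_cast; rw [mul_pow]; field_simp
    rw [e1] at h3 h4
    rw [e2] at h5
    exact ⟨w, ⟨h1, h2⟩, h3, h4, by linarith⟩
  choose w hw using key
  have hmem : ∀ m : ℕ, (egy (w m), t - K / (2 * (n * (m + 1)))) ∈ CC G :=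
    fun m => ⟨w m, (hw m).1, rfl, (hw m).2.2.2⟩
  have hlim0 : Tendsto (fun m : ℕ => (m : ℝ) + 1) atTop atTop :=
    tendsto_atTop_add_const_right _ _ tendsto_natCast_atTop_atTop
  have hlim1 : Tendsto (fun m : ℕ => n * ((m : ℝ) + 1)) atTop atTop :=
    hlim0.const_mul_atTop hn
  have hlim2 : Tendsto (fun m : ℕ => 1 / (n * ((m : ℝ) + 1))) atTop (𝓝 0) :=
    hlim1.const_div_atTop 1
  have hlim3 : Tendsto (fun m : ℕ => K / (2 * (n * ((m : ℝ) + 1)))) atTop (𝓝 0) :=
    (hlim1.const_mul_atTop (by norm_num : (0:ℝ) < 2)).const_div_atTop K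
  have hE : Tendsto (fun m => egy (w m)) atTop (𝓝 A) := by
    refine tendsto_of_tendsto_of_tendsto_of_le_of_le tendsto_const_nhds
      (h := fun m : ℕ => A + 1 / (n * ((m : ℝ) + 1))) ?_ (fun m => (hw m).2.1) (fun m => (hw m).2.2.1)
    simpa using hlim2.const_add A
  have hT : Tendsto (fun m : ℕ => t - K / (2 * (n * ((m:ℝ) + 1)))) atTop (𝓝 t) := by
    simpa using hlim3.const_sub t
  exact (CC_closed G).mem_of_tendsto (hE.prodMk_nhds hT) (Eventually.of_forall hmem)

end Pool.Agent.H488R3
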