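import Mathlib
import Pool.Agent.H488R3.Lim

set_option autoImplicit false

namespace Pool.Agent.H488R3

open Finset Filter Topology
open scoped Classical

variable {V : Type} [Fintype V]

/-- realisation graph -/
def HG {W : Type} (cl : W → Cls) : SimpleGraph W where
  Adj i j := i ≠ j ∧ Cls.ok (cl i) (cl j)
  symm := ⟨fun _ _ h => ⟨h.1.symm, Cls.ok_symm h.2⟩⟩
  loopless := ⟨fun _ h => h.1 rfl⟩

noncomputable def LH {W : Type} [Fintype W] (G : SimpleGraph V) (cl : W → Cls) : Finset (V → W) :=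
  univ.filter (fun φ => ∀ a b, G.Adj a b → Cls.ok (cl (φ a)) (cl (φ b)))

noncomputable def cnt {W : Type} [Fintype W] (cl : W → Cls) (c : Cls) : ℝ :=
  ((univ.filter (fun i => cl i = c)).card : ℝ)

lemma LH_card {W : Type} [Fintype W] (G : SimpleGraph V) (cl : W → Cls) :
    ((LH G cl).card : ℝ) = tval G (cnt cl) := by
  have h1 : (LH G cl).card = ∑ c ∈ (univ : Finset (V → Cls)).filter (fun c => ∀ a b, G.Adj a b → Cls.ok (c a) (c b)),
      ((LH G cl).filter (fun φ => (fun v => cl (φ v)) = c)).card := by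
    apply card_eq_sum_card_fiberwise
    intro φ hφ
    simp only [LH, coe_filter, mem_univ, true_and, Set.mem_ofPred_eq] at hφ ⊢
    exact hφ
  rw [h1]
  unfold tval
  rw [← sum_filter]
  push_cast
  apply sum_congr rfl
  intro c hc
  simp only [mem_filter, mem_univ, true_and] at hc
  have h2 : (LH G cl).filter (fun φ => (fun v => cl (φ v)) = c)
      = Fintype.piFinset (fun v => univ.filter (fun i => cl i = c v)) := by
    ext φ
    simp only [LH, mem_filter, mem_univ, true_and, Fintype.mem_piFinset]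
    constructor
    · rintro ⟨_, h⟩ v
      exact congrFun h v
    · intro h
      refine ⟨fun a b hab => ?_, funext h⟩
      rw [h a, h b]; exact hc a b hab
  rw [h2, Fintype.card_piFinset]
  push_cast
  rfl

lemma HM_sub_LH {W : Type} [Fintype W] (G : SimpleGraph V) (cl : W → Cls) :
    HM G (HG cl) ⊆ LH G cl := by
  intro φ hφ
  rw [mem_HM] at hφ
  simp only [LH, mem_filter, mem_univ, true_and]
  exact fun a b hab => (hφ a b hab).2

lemma fiber_eq {W : Type} [Fintype W] {a b : V} (hab : a ≠ b) :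
    Fintype.card W * (univ.filter (fun φ : V → W => φ a = φ b)).card ≤ Fintype.card W ^ Fintype.card V := by
  have h1 : Fintype.card W * (univ.filter (fun φ : V → W => φ a = φ b)).card
      = ((univ : Finset W) ×ˢ (univ.filter (fun φ : V → W => φ a = φ b))).card := by
    rw [card_product, card_univ]
  have h2 : Fintype.card W ^ Fintype.card V = (univ : Finset (V → W)).card := by
    rw [card_univ, Fintype.card_fun]
  rw [h1, h2]
  refine card_le_card_of_injOn (fun p => Function.update p.2 b p.1) (fun _ _ => by simp) ?_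
  rintro ⟨x, φ⟩ hp ⟨y, ψ⟩ hq he
  simp only [coe_product, coe_univ, coe_filter, mem_univ, true_and, Set.mem_prod, Set.mem_univ, Set.mem_ofPred_eq] at hp hq
  simp only at he
  have hb := congrFun he b
  simp only [Function.update_self] at hb
  have hne : ∀ v, v ≠ b → φ v = ψ v := by
    intro v hv
    have := congrFun he v
    rwa [Function.update_of_ne hv, Function.update_of_ne hv] at this
  have : φ = ψ := by
    funext v
    by_cases hv : v = b
    · subst hv
      rw [← hp, ← hq]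
      exact hne a hab
    · exact hne v hv
  rw [hb, this]

lemma LH_bound {W : Type} [Fintype W] (G : SimpleGraph V) (cl : W → Cls) :
    Fintype.card W * (LH G cl).card ≤ Fintype.card W * (HM G (HG cl)).card
      + Fintype.card V ^ 2 * Fintype.card W ^ Fintype.card V := by
  have h1 : LH G cl ⊆ HM G (HG cl) ∪ ((univ : Finset (V × V)).filter (fun p => p.1 ≠ p.2)).biUnion
      (fun p => univ.filter (fun φ : V → W => φ p.1 = φ p.2)) := by
    intro φ hφ
    simp only [LH, mem_filter, mem_univ, true_and] at hφ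
    by_cases h : φ ∈ HM G (HG cl)
    · exact mem_union_left _ h
    · apply mem_union_right
      rw [mem_HM] at h
      push Not at h
      obtain ⟨a, b, hab, hn⟩ := h
      simp only [mem_biUnion, mem_filter, mem_univ, true_and]
      refine ⟨(a, b), hab.ne, ?_⟩
      by_contra hne
      exact hn ⟨hne, hφ a b hab⟩
  have h2 := (card_le_card h1).trans (card_union_le _ _)
  have h3 : Fintype.card W * (((univ : Finset (V × V)).filter (fun p => p.1 ≠ p.2)).biUnion
      (fun p => univ.filter (fun φ : V → W => φ p.1 = φ p.2))).card ≤ Fintype.card V ^ 2 * Fintype.card W ^ Fintype.card V := by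
    calc _ ≤ Fintype.card W * ∑ p ∈ (univ : Finset (V × V)).filter (fun p => p.1 ≠ p.2), (univ.filter (fun φ : V → W => φ p.1 = φ p.2)).card :=
          Nat.mul_le_mul_left _ card_biUnion_le
      _ = ∑ p ∈ (univ : Finset (V × V)).filter (fun p => p.1 ≠ p.2), Fintype.card W * (univ.filter (fun φ : V → W => φ p.1 = φ p.2)).card := by
          rw [mul_sum]
      _ ≤ ∑ p ∈ (univ : Finset (V × V)).filter (fun p => p.1 ≠ p.2), Fintype.card W ^ Fintype.card V := by
          apply sum_le_sum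
          intro p hp
          exact fiber_eq (mem_filter.1 hp).2
      _ ≤ ∑ p : V × V, Fintype.card W ^ Fintype.card V :=
          sum_le_sum_of_subset (filter_subset _ _)
      _ = _ := by
          rw [sum_const, smul_eq_mul, card_univ, Fintype.card_prod]; ring
  calc Fintype.card W * (LH G cl).card ≤ Fintype.card W * ((HM G (HG cl)).card + _) := Nat.mul_le_mul_left _ h2
    _ ≤ _ := by rw [mul_add]; exact Nat.add_le_add_left h3 _

/-- class function on `Fin N` -/
noncomputable def clN (w : Cls → ℝ) (N : ℕ) (i : Fin N) : Cls :=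
  if (i : ℕ) < ⌊w .R * N⌋₊ then .R else if (i : ℕ) < ⌊w .R * N⌋₊ + ⌊w .B * N⌋₊ then .B else .Y

lemma card_filter_fin (N : ℕ) (p : ℕ → Prop) [h1 : DecidablePred (fun i : Fin N => p (i : ℕ))]
    [h2 : DecidablePred p] :
    ((univ : Finset (Fin N)).filter (fun i : Fin N => p (i : ℕ))).card = ((range N).filter p).card := by
  rw [card_filter, card_filter]
  rw [← Fin.sum_univ_eq_sum_range (fun i => if p i then 1 else 0) N]

lemma floor_le {w : Cls → ℝ} (hw : w ∈ KK) (N : ℕ) : ⌊w .R * N⌋₊ + ⌊w .B * N⌋₊ ≤ N := by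
  obtain ⟨h0, h1⟩ := hw
  have a1 : (⌊w .R * N⌋₊ : ℝ) ≤ w .R * N := Nat.floor_le (mul_nonneg (h0 _) (Nat.cast_nonneg _))
  have a2 : (⌊w .B * N⌋₊ : ℝ) ≤ w .B * N := Nat.floor_le (mul_nonneg (h0 _) (Nat.cast_nonneg _))
  have a3 : (0:ℝ) ≤ w .Y * N := mul_nonneg (h0 _) (Nat.cast_nonneg _)
  have : ((⌊w .R * N⌋₊ + ⌊w .B * N⌋₊ : ℕ) : ℝ) ≤ N := by
    push_cast
    nlinarith
  exact_mod_cast this

lemma cnt_R {w : Cls → ℝ} (hw : w ∈ KK) (N : ℕ) : cnt (clN w N) .R = (⌊w .R * N⌋₊ : ℝ) := by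
  have hf := floor_le hw N
  unfold cnt
  congr 1
  have h1 : (univ : Finset (Fin N)).filter (fun i => clN w N i = .R)
      = (univ : Finset (Fin N)).filter (fun i : Fin N => (i : ℕ) < ⌊w .R * N⌋₊) := by
    apply filter_congr
    intro i _
    unfold clN
    split_ifs with g1 g2 <;> simp [g1]
  have h2 : ((univ : Finset (Fin N)).filter (fun i : Fin N => (i : ℕ) < ⌊w .R * N⌋₊)).card
      = ((range N).filter (fun k : ℕ => k < ⌊w .R * N⌋₊)).card :=
    card_filter_fin N (fun k => k < ⌊w .R * N⌋₊)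
  rw [h1, h2]
  have : (range N).filter (fun k : ℕ => k < ⌊w .R * N⌋₊) = range ⌊w .R * N⌋₊ := by
    ext k; simp only [mem_filter, mem_range]; omega
  rw [this, card_range]

lemma cnt_B {w : Cls → ℝ} (hw : w ∈ KK) (N : ℕ) : cnt (clN w N) .B = (⌊w .B * N⌋₊ : ℝ) := by
  have hf := floor_le hw N
  unfold cnt
  congr 1
  have h1 : (univ : Finset (Fin N)).filter (fun i => clN w N i = .B)
      = (univ : Finset (Fin N)).filter (fun i : Fin N => ¬ (i : ℕ) < ⌊w .R * N⌋₊ ∧ (i : ℕ) < ⌊w .R * N⌋₊ + ⌊w .B * N⌋₊) := by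
    apply filter_congr
    intro i _
    unfold clN
    by_cases g1 : (i : ℕ) < ⌊w .R * N⌋₊
    · simp [g1]
    · by_cases g2 : (i : ℕ) < ⌊w .R * N⌋₊ + ⌊w .B * N⌋₊ <;> simp [g1, g2]
  have h2 : ((univ : Finset (Fin N)).filter (fun i : Fin N => ¬ (i : ℕ) < ⌊w .R * N⌋₊ ∧ (i : ℕ) < ⌊w .R * N⌋₊ + ⌊w .B * N⌋₊)).card
      = ((range N).filter (fun k : ℕ => ¬ k < ⌊w .R * N⌋₊ ∧ k < ⌊w .R * N⌋₊ + ⌊w .B * N⌋₊)).card :=
    card_filter_fin N (fun k => ¬ k < ⌊w .R * N⌋₊ ∧ k < ⌊w .R * N⌋₊ + ⌊w .B * N⌋₊)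
  rw [h1, h2]
  have : (range N).filter (fun k : ℕ => ¬ k < ⌊w .R * N⌋₊ ∧ k < ⌊w .R * N⌋₊ + ⌊w .B * N⌋₊)
      = Ico ⌊w .R * N⌋₊ (⌊w .R * N⌋₊ + ⌊w .B * N⌋₊) := by
    ext k; simp only [mem_filter, mem_range, mem_Ico]; omega
  rw [this, Nat.card_Ico]
  omega

lemma cnt_Y {w : Cls → ℝ} (hw : w ∈ KK) (N : ℕ) :
    cnt (clN w N) .Y = N - (⌊w .R * N⌋₊ : ℝ) - (⌊w .B * N⌋₊ : ℝ) := by
  have hf := floor_le hw N
  unfold cnt
  have h1 : (univ : Finset (Fin N)).filter (fun i => clN w N i = .Y)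
      = (univ : Finset (Fin N)).filter (fun i : Fin N => ¬ (i : ℕ) < ⌊w .R * N⌋₊ + ⌊w .B * N⌋₊) := by
    apply filter_congr
    intro i _
    unfold clN
    split_ifs with g1 g2
    · simp; omega
    · simp [g2]
    · simp; omega
  have h2 : ((univ : Finset (Fin N)).filter (fun i : Fin N => ¬ (i : ℕ) < ⌊w .R * N⌋₊ + ⌊w .B * N⌋₊)).card
      = ((range N).filter (fun k : ℕ => ¬ k < ⌊w .R * N⌋₊ + ⌊w .B * N⌋₊)).card :=
    card_filter_fin N (fun k => ¬ k < ⌊w .R * N⌋₊ + ⌊w .B * N⌋₊)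
  rw [h1, h2]
  have : (range N).filter (fun k : ℕ => ¬ k < ⌊w .R * N⌋₊ + ⌊w .B * N⌋₊)
      = Ico (⌊w .R * N⌋₊ + ⌊w .B * N⌋₊) N := by
    ext k; simp only [mem_filter, mem_range, mem_Ico]; omega
  rw [this, Nat.card_Ico, Nat.cast_sub hf]
  push_cast
  ring

lemma cnt_tendsto {w : Cls → ℝ} (hw : w ∈ KK) :
    Tendsto (fun N : ℕ => (fun c => cnt (clN w N) c / (N : ℝ))) atTop (𝓝 w) := by
  have hR : Tendsto (fun N : ℕ => (⌊w .R * N⌋₊ : ℝ) / N) atTop (𝓝 (w .R)) :=
    (tendsto_nat_floor_mul_div_atTop (hw.1 .R)).comp tendsto_natCast_atTop_atTop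
  have hB : Tendsto (fun N : ℕ => (⌊w .B * N⌋₊ : ℝ) / N) atTop (𝓝 (w .B)) :=
    (tendsto_nat_floor_mul_div_atTop (hw.1 .B)).comp tendsto_natCast_atTop_atTop
  rw [tendsto_pi_nhds]
  intro c
  cases c
  · have hY : w .Y = 1 - w .R - w .B := by linarith [hw.2]
    rw [hY]
    have h1 : Tendsto (fun N : ℕ => 1 - (⌊w .R * N⌋₊ : ℝ) / N - (⌊w .B * N⌋₊ : ℝ) / N) atTop (𝓝 (1 - w .R - w .B)) :=
      (hR.const_sub 1).sub hB
    refine h1.congr' ?_
    filter_upwards [eventually_gt_atTop 0] with N hN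
    have : (N:ℝ) ≠ 0 := by positivity
    rw [cnt_Y hw]
    field_simp
  · simp_rw [cnt_R hw]; exact hR
  · simp_rw [cnt_B hw]; exact hB

/-- hom densities converge -/
theorem hom_tendsto {w : Cls → ℝ} (hw : w ∈ KK) (G : SimpleGraph V) :
    Tendsto (fun N : ℕ => ((HM G (HG (clN w N))).card : ℝ) / (N : ℝ) ^ Fintype.card V) atTop (𝓝 (tval G w)) := by
  have h1 : Tendsto (fun N : ℕ => ((LH G (clN w N)).card : ℝ) / (N : ℝ) ^ Fintype.card V) atTop (𝓝 (tval G w)) := by
    have h2 := ((tval_continuous G).tendsto w).comp (cnt_tendsto hw)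
    refine h2.congr' ?_
    filter_upwards [eventually_gt_atTop 0] with N hN
    have hN' : (N:ℝ) ≠ 0 := by positivity
    rw [LH_card]
    have : cnt (clN w N) = fun c => (N:ℝ) * (cnt (clN w N) c / N) := by
      funext c; field_simp
    rw [Function.comp_apply]
    conv_rhs => rw [this]
    rw [tval_smul]
    field_simp
  have h3 : Tendsto (fun N : ℕ => ((LH G (clN w N)).card : ℝ) / (N : ℝ) ^ Fintype.card V - (Fintype.card V : ℝ) ^ 2 / N) atTop (𝓝 (tval G w)) := by
    have : Tendsto (fun N : ℕ => (Fintype.card V : ℝ) ^ 2 / N) atTop (𝓝 0) :=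
      tendsto_natCast_atTop_atTop.const_div_atTop _
    simpa using h1.sub this
  refine tendsto_of_tendsto_of_tendsto_of_le_of_le' h3 h1 ?_ ?_
  · filter_upwards [eventually_gt_atTop 0] with N hN
    have hN' : (0:ℝ) < N := by exact_mod_cast hN
    have h4 := LH_bound G (clN w N)
    rw [Fintype.card_fin] at h4
    have h5 : (N:ℝ) * (LH G (clN w N)).card ≤ N * (HM G (HG (clN w N))).card + (Fintype.card V : ℝ) ^ 2 * (N:ℝ) ^ Fintype.card V := by
      exact_mod_cast h4
    rw [sub_le_iff_le_add, div_le_iff₀ (by positivity)]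
    have h6 : (N:ℝ) * ((((HM G (HG (clN w N))).card : ℝ) / (N:ℝ) ^ Fintype.card V + (Fintype.card V : ℝ) ^ 2 / N) * (N:ℝ) ^ Fintype.card V)
        = N * (HM G (HG (clN w N))).card + (Fintype.card V : ℝ) ^ 2 * (N:ℝ) ^ Fintype.card V := by
      field_simp
    rw [← h6] at h5
    exact le_of_mul_le_mul_left h5 hN'
  · filter_upwards [eventually_gt_atTop 0] with N hN
    apply div_le_div_of_nonneg_right _ (by positivity)
    exact_mod_cast card_le_card (HM_sub_LH G (clN w N))

lemma EE_eq {W : Type} [Fintype W] (H : SimpleGraph W) :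
    EE H = ((HM (⊤ : SimpleGraph (Fin 2)) H).card : ℤ) := by
  have h1 : EE H = ((((univ : Finset (W × W)).filter (fun p => H.Adj p.1 p.2)).card : ℕ) : ℤ) := by
    rw [card_filter]
    unfold EE dg
    rw [Fintype.sum_prod_type]
    push_cast
    rfl
  rw [h1]
  congr 1
  refine card_bij' (fun p _ => ![p.1, p.2]) (fun φ _ => (φ 0, φ 1)) ?_ ?_ ?_ ?_
  · rintro ⟨a, b⟩ hp
    simp only [mem_filter, mem_univ, true_and] at hp
    rw [mem_HM]
    intro i j hij
    fin_cases i <;> fin_cases j <;> simp at hij ⊢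
    · exact hp
    · exact hp.symm
  · intro φ hφ
    rw [mem_HM] at hφ
    simp only [mem_filter, mem_univ, true_and]
    exact hφ 0 1 (by simp)
  · rintro ⟨a, b⟩ _; rfl
  · intro φ _
    funext i
    fin_cases i <;> rfl

lemma cls_univ : (univ : Finset Cls) = {Cls.Y, Cls.R, Cls.B} := by
  ext c; cases c <;> simp

lemma cls_pair (w : Cls → ℝ) :
    (∑ p : Cls × Cls, if Cls.ok p.1 p.2 then w p.1 * w p.2 else 0) = egy w := by
  rw [Fintype.sum_prod_type]
  simp only [cls_univ]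
  simp [Cls.ok, egy]
  ring

lemma cls_K2 (c : Fin 2 → Cls) :
    (∀ a b, (⊤ : SimpleGraph (Fin 2)).Adj a b → Cls.ok (c a) (c b)) ↔ Cls.ok (c 0) (c 1) := by
  constructor
  · intro h
    apply h 0 1
    rw [SimpleGraph.top_adj]
    decide
  · intro h a b hab
    rw [SimpleGraph.top_adj] at hab
    have ha : a = 0 ∨ a = 1 := by omega
    have hb : b = 0 ∨ b = 1 := by omega
    rcases ha with ha | ha <;> rcases hb with hb | hb
    · exact absurd (ha.trans hb.symm) hab
    · rw [ha, hb]; exact h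
    · rw [ha, hb]; exact Cls.ok_symm h
    · exact absurd (ha.trans hb.symm) hab

lemma sum_any (inst : Fintype (Fin 2 → Cls)) (F : (Fin 2 → Cls) → ℝ) :
    @Finset.sum _ _ _ (@univ _ inst) F = ∑ p : Cls × Cls, F ((finTwoArrowEquiv Cls).symm p) := by
  have h : inst = Pi.instFintype := Subsingleton.elim _ _
  subst h
  exact (Equiv.sum_comp (finTwoArrowEquiv Cls).symm F).symm

lemma tval_K2 (w : Cls → ℝ) : tval (⊤ : SimpleGraph (Fin 2)) w = egy w := by
  unfold tval
  simp_rw [cls_K2, Fin.prod_univ_two]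
  rw [← cls_pair w]
  exact sum_any _ _

theorem egy_tendsto {w : Cls → ℝ} (hw : w ∈ KK) :
    Tendsto (fun N : ℕ => (EE (HG (clN w N)) : ℝ) / (N : ℝ) ^ 2) atTop (𝓝 (egy w)) := by
  have h := hom_tendsto hw (⊤ : SimpleGraph (Fin 2))
  rw [tval_K2, Fintype.card_fin] at h
  refine h.congr ?_
  intro N
  rw [EE_eq]
  push_cast
  rfl

end Pool.Agent.H488R3
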